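import Pool.Agent.H97.NetBasic

set_option autoImplicit false

open MeasureTheory ProbabilityTheory Filter Topology
open scoped ENNReal

namespace Pool.Agent.H97

/-- Composition of nets: keep the points of `R` whose index lies in `Y`. -/
noncomputable def comp (R Y : Cfg) : Cfg := fun x => R x && Y (idx R x)

lemma measurable_comp : Measurable (fun p : Cfg × Cfg => comp p.1 p.2) := by
  refine measurable_pi_iff.2 (fun x => ?_)
  have h1 : Measurable (fun p : Cfg × Cfg => p.1 x) := (measurable_apply x).comp measurable_fst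
  have h2 : Measurable (fun p : Cfg × Cfg => p.2 (idx p.1 x)) :=
    measurable_eval_at.comp (measurable_snd.prodMk ((measurable_idx x).comp measurable_fst))
  exact (measurable_of_countable (fun q : Bool × Bool => q.1 && q.2)).comp (h1.prodMk h2)

lemma comp_apply_eq_true {R Y : Cfg} {x : ℤ} :
    comp R Y x = true ↔ R x = true ∧ Y (idx R x) = true := by
  simp [comp]

lemma sh_comp (t : ℤ) (R Y : Cfg) : sh t (comp R Y) = comp (sh t R) (sh (idx R t) Y) := by
  funext x
  have h := idx_sh R t x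
  unfold comp
  rw [h]
  unfold sh
  rw [show idx R (x + t) - idx R t + idx R t = idx R (x + t) by ring]

/-! ### Net property of compositions -/

lemma sep_idx {a b : ℤ} {R : Cfg} (hR : IsNet a b R) {x : ℤ} (hx : R x = true) (n : ℕ) :
    ∀ y, R y = true → x ≤ y → idx R y - idx R x = n → a * n ≤ y - x := by
  induction n with
  | zero => intro y _ hxy _; simp; omega
  | succ n ih =>
    intro y hy hxy hn
    have hlt : x < y := by
      rcases hxy.lt_or_eq with h | h
      · exact h
      · subst h; push_cast at hn; omega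
    obtain ⟨z, hz1, hz2, hz3, hz4⟩ : ∃ z, x ≤ z ∧ z < y ∧ R z = true ∧ idx R z - idx R x = n := by
      rcases n with _ | n
      · exact ⟨x, le_rfl, hlt, hx, by simp⟩
      · have h1 : idx R x < idx R y - 1 := by push_cast at hn; omega
        obtain ⟨z, h2, h3, h4, h5⟩ := exists_idx_eq R h1 (y - x).toNat (by
          rw [Int.toNat_of_nonneg (by omega)]; rw [show x + (y - x) = y by ring]; omega)
        rw [Int.toNat_of_nonneg (by omega)] at h3
        refine ⟨z, h2.le, ?_, h4, by push_cast at hn ⊢; omega⟩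
        rcases (show z ≤ y by omega).lt_or_eq with h | h
        · exact h
        · subst h; omega
    have h1 := ih z hz3 hz1 hz4
    have h2 := hR.sep z y hz3 hy hz2
    push_cast
    have : a * (n + 1) = a * n + a := by ring
    omega

lemma growth {a b : ℤ} {R : Cfg} (hR : IsNet a b R) (x : ℤ) (n : ℕ) :
    idx R x + n ≤ idx R (x + b * n) := by
  induction n with
  | zero => simp
  | succ n ih =>
    obtain ⟨y, h1, h2, h3⟩ := hR.dense (x + b * n)
    have h4 := idx_lt_of_true R h1 h3
    have h5 := idx_mono R h2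
    push_cast
    have h6 : x + b * ((n : ℤ) + 1) = x + b * n + b := by ring
    rw [h6]
    omega

lemma IsNet.comp {a b m M : ℕ} {R Y : Cfg} (hR : IsNet a b R) (hY : IsNet m M Y) :
    IsNet ((a * m : ℕ) : ℤ) ((b * M : ℕ) : ℤ) (comp R Y) := by
  constructor
  · intro x y hx hy hxy
    rw [comp_apply_eq_true] at hx hy
    have h1 := idx_lt_of_true R hxy hy.1
    have h2 := hY.sep _ _ hx.2 hy.2 h1
    obtain ⟨n, hn⟩ := Int.le.dest h1.le
    have h3 := sep_idx hR hx.1 n y hy.1 hxy.le (by omega)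
    have h4 : (m : ℤ) ≤ n := by omega
    have h5 : (a : ℤ) * m ≤ a * n := mul_le_mul_of_nonneg_left h4 (by positivity)
    push_cast
    omega
  · intro x
    obtain ⟨l, hl1, hl2, hl3⟩ := hY.dense (idx R x)
    have h1 := growth hR x M
    obtain ⟨y, hy1, hy2, hy3, hy4⟩ := exists_idx_eq R hl1 (b * M) (by push_cast; omega)
    exact ⟨y, hy1, hy2, comp_apply_eq_true.2 ⟨hy3, by rw [hy4]; exact hl3⟩⟩

/-! ### Cutting compositions -/

lemma cutL_comp (R Y : Cfg) : cutL (comp R Y) = comp (cutL R) (cutL Y) := by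
  funext x
  by_cases hx : x ≤ 0
  · have h1 : idx R x ≤ 0 := by
      have := idx_mono R hx
      rwa [idx_zero] at this
    unfold comp
    rw [idx_cutL R hx]
    simp only [cutL, if_pos hx, if_pos h1]
  · simp [comp, cutL, hx]

lemma cutR_comp {k : ℤ} (hk : 1 ≤ k) (R Y : Cfg) :
    cutR k (comp R Y) = comp (cutR k R) (cutR 1 (sh (idx R (k - 1)) Y)) := by
  funext x
  by_cases hx : k ≤ x
  · unfold comp
    rw [idx_cutR R hk (by omega)]
    by_cases hRx : R x = true
    · have h1 := idx_lt_of_true R (show k - 1 < x by omega) hRx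
      have h2 : (1 : ℤ) ≤ idx R x - idx R (k - 1) := by omega
      simp only [cutR, if_pos hx, if_pos h2, sh]
      congr 2
      ring
    · rw [Bool.not_eq_true] at hRx
      simp [cutR, hx, hRx]
  · simp [comp, cutR, hx]

lemma cutR_sh_cutR {k n : ℤ} (h : k - 1 ≤ n) (Y : Cfg) :
    cutR 1 (sh n (cutR k Y)) = cutR 1 (sh n Y) := by
  funext x
  by_cases hx : 1 ≤ x
  · simp only [cutR, if_pos hx, sh]
    rw [if_pos (by omega)]
  · simp [cutR, hx]

lemma cutR_cutR {k k' : ℤ} (h : k ≤ k') (Y : Cfg) : cutR k' (cutR k Y) = cutR k' Y := by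
  funext x
  by_cases hx : k' ≤ x
  · simp only [cutR, if_pos hx]
    rw [if_pos (by omega)]
  · simp [cutR, hx]

lemma Good.mono {a b K K' : ℕ} {μ : Measure Cfg} (h : Good a b K μ) (hK : K ≤ K') :
    Good a b K' μ := by
  refine ⟨h.prob, h.stat, h.net, ?_⟩
  have h1 := h.indep.comp measurable_id (measurable_cutR (K' : ℤ))
  have h2 : cutR (K' : ℤ) ∘ cutR (K : ℤ) = cutR (K' : ℤ) := by
    funext η
    exact cutR_cutR (by exact_mod_cast hK) η
  rw [h2] at h1
  exact h1

lemma measurableSet_isNet (a b : ℤ) : MeasurableSet {η : Cfg | IsNet a b η} := by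
  have h : {η : Cfg | IsNet a b η} =
      (⋂ x : ℤ, ⋂ y : ℤ, {η : Cfg | η x = true → η y = true → x < y → a ≤ y - x}) ∩
      (⋂ x : ℤ, ⋃ y : ℤ, {η : Cfg | x < y ∧ y ≤ x + b ∧ η y = true}) := by
    ext η
    simp only [Set.mem_ofPred_eq, Set.mem_inter_iff, Set.mem_iInter, Set.mem_iUnion]
    exact ⟨fun h => ⟨h.sep, h.dense⟩, fun h => ⟨h.1, h.2⟩⟩
  rw [h]
  refine MeasurableSet.inter ?_ ?_
  · refine MeasurableSet.iInter (fun x => MeasurableSet.iInter (fun y => ?_))
    have h1 : Measurable (fun η : Cfg => (η x, η y)) := (measurable_apply x).prodMk (measurable_apply y)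
    exact h1 (MeasurableSet.of_discrete
      (s := {q : Bool × Bool | q.1 = true → q.2 = true → x < y → a ≤ y - x}))
  · refine MeasurableSet.iInter (fun x => MeasurableSet.iUnion (fun y => ?_))
    exact (measurable_apply y) (MeasurableSet.of_discrete
      (s := {q : Bool | x < y ∧ y ≤ x + b ∧ q = true}))

/-! ### The composition theorem -/

lemma measurable_sh_idx (t : ℤ) : Measurable (fun p : Cfg × Cfg => sh (idx p.1 t) p.2) := by
  refine measurable_pi_iff.2 (fun x => ?_)
  unfold sh
  exact measurable_eval_at.comp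
    (measurable_snd.prodMk (measurable_const.add ((measurable_idx t).comp measurable_fst)))

theorem Good.comp {a b K m M k : ℕ} (hb : 1 ≤ b) (hk : 1 ≤ k) {μ ν : Measure Cfg}
    (hμ : Good a b K μ) (hν : Good m M k ν) :
    Good (a * m) (b * M) (max K (k * b)) ((μ.prod ν).map (fun p => comp p.1 p.2)) := by
  have := hμ.prob
  have := hν.prob
  have hmc := measurable_comp
  refine ⟨Measure.isProbabilityMeasure_map hmc.aemeasurable, ?_, ?_, ?_⟩
  · -- stationarity
    intro t
    have hskew : MeasurePreserving (fun p : Cfg × Cfg => (sh t p.1, sh (idx p.1 t) p.2))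
        (μ.prod ν) (μ.prod ν) := by
      refine MeasurePreserving.skew_product (g := fun R Y => sh (idx R t) Y)
        ⟨measurable_sh t, hμ.stat t⟩ (measurable_sh_idx t) ?_
      exact ae_of_all _ (fun R => hν.stat _)
    rw [Measure.map_map (measurable_sh t) hmc]
    have h1 : (sh t ∘ fun p : Cfg × Cfg => H97.comp p.1 p.2) =
        (fun p : Cfg × Cfg => H97.comp p.1 p.2) ∘
          (fun p : Cfg × Cfg => (sh t p.1, sh (idx p.1 t) p.2)) := by
      funext p
      exact sh_comp t p.1 p.2
    rw [h1, ← Measure.map_map hmc hskew.measurable, hskew.map_eq]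
  · -- net property
    rw [ae_map_iff hmc.aemeasurable]
    · have h1 : ∀ᵐ p ∂(μ.prod ν), IsNet a b p.1 :=
        (Measure.quasiMeasurePreserving_fst (μ := μ) (ν := ν)).ae hμ.net
      have h2 : ∀ᵐ p ∂(μ.prod ν), IsNet m M p.2 :=
        (Measure.quasiMeasurePreserving_snd (μ := μ) (ν := ν)).ae hν.net
      filter_upwards [h1, h2] with p hp1 hp2
      exact hp1.comp hp2
    · exact measurableSet_isNet _ _
  · -- finite dependence
    set K' : ℕ := max K (k * b) with hK'
    have hkb : k * b ≤ K' := le_max_right _ _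
    have hk1 : 1 ≤ k * b := Nat.mul_le_mul hk hb
    have hK1 : (1 : ℤ) ≤ (K' : ℤ) := by exact_mod_cast hk1.trans hkb
    have hμ' : Good a b K' μ := hμ.mono (le_max_left _ _)
    rw [indepFun_iff_measure_inter_preimage_eq_mul]
    intro S1 S2 hS1 hS2
    have hmL := measurable_cutL
    have hmR := measurable_cutR (K' : ℤ)
    rw [Measure.map_apply hmc (hmL hS1), Measure.map_apply hmc (hmR hS2),
      Measure.map_apply hmc ((hmL hS1).inter (hmR hS2))]
    -- the functions `α` and `β`
    have hmA : Measurable (fun p : Cfg × Cfg => H97.comp p.1 (cutL p.2)) :=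
      hmc.comp (measurable_fst.prodMk (measurable_cutL.comp measurable_snd))
    have hmB : Measurable (fun p : Cfg × Cfg => H97.comp p.1 (cutR 1 p.2)) :=
      hmc.comp (measurable_fst.prodMk ((measurable_cutR 1).comp measurable_snd))
    let α : Cfg → ℝ≥0∞ := fun R => ν {Y | H97.comp R (cutL Y) ∈ S1}
    let β : Cfg → ℝ≥0∞ := fun R => ν {Y | H97.comp R (cutR 1 Y) ∈ S2}
    have hα : Measurable α := measurable_measure_prodMk_left (hmA hS1)
    have hβ : Measurable β := measurable_measure_prodMk_left (hmB hS2)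
    have hβn : ∀ (R : Cfg) (n : ℤ), ν {Y | H97.comp R (cutR 1 (sh n Y)) ∈ S2} = β R := by
      intro R n
      have h1 : MeasurableSet {Y | H97.comp R (cutR 1 Y) ∈ S2} :=
        (hmB.comp measurable_prodMk_left) hS2
      have h2 : ν {Y | H97.comp R (cutR 1 Y) ∈ S2} = (ν.map (sh n)) {Y | H97.comp R (cutR 1 Y) ∈ S2} := by
        rw [hν.stat n]
      change _ = ν {Y | H97.comp R (cutR 1 Y) ∈ S2}
      rw [h2, Measure.map_apply (measurable_sh n) h1]
      rfl
    -- left probability
    have e1 : (μ.prod ν) ((fun p => H97.comp p.1 p.2) ⁻¹' (cutL ⁻¹' S1)) = ∫⁻ R, α (cutL R) ∂μ := by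
      rw [Measure.prod_apply (hmc (hmL hS1))]
      refine lintegral_congr (fun R => ?_)
      have : Prod.mk R ⁻¹' ((fun p : Cfg × Cfg => H97.comp p.1 p.2) ⁻¹' (cutL ⁻¹' S1)) =
          {Y | H97.comp (cutL R) (cutL Y) ∈ S1} := by
        ext Y
        simp only [Set.mem_preimage, Set.mem_ofPred_eq, cutL_comp]
      rw [this]
    -- right probability
    have e2 : (μ.prod ν) ((fun p => H97.comp p.1 p.2) ⁻¹' (cutR K' ⁻¹' S2)) =
        ∫⁻ R, β (cutR K' R) ∂μ := by
      rw [Measure.prod_apply (hmc (hmR hS2))]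
      refine lintegral_congr (fun R => ?_)
      have : Prod.mk R ⁻¹' ((fun p : Cfg × Cfg => H97.comp p.1 p.2) ⁻¹' (cutR K' ⁻¹' S2)) =
          {Y | H97.comp (cutR K' R) (cutR 1 (sh (idx R (K' - 1)) Y)) ∈ S2} := by
        ext Y
        simp only [Set.mem_preimage, Set.mem_ofPred_eq, cutR_comp hK1]
      rw [this, hβn]
    -- joint probability
    have e3 : (μ.prod ν) ((fun p => H97.comp p.1 p.2) ⁻¹' (cutL ⁻¹' S1) ∩
        (fun p => H97.comp p.1 p.2) ⁻¹' (cutR K' ⁻¹' S2)) =
        ∫⁻ R, α (cutL R) * β (cutR K' R) ∂μ := by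
      rw [Measure.prod_apply ((hmc (hmL hS1)).inter (hmc (hmR hS2)))]
      refine lintegral_congr_ae ?_
      filter_upwards [hμ.net] with R hR
      have hn : (k : ℤ) - 1 ≤ idx R (K' - 1) := by
        have h1 := growth hR 0 (k - 1)
        rw [idx_zero] at h1
        have h2 : (0 : ℤ) + b * ((k - 1 : ℕ) : ℤ) ≤ (K' : ℤ) - 1 := by
          have h3 : ((k - 1 : ℕ) : ℤ) = (k : ℤ) - 1 := by push_cast [Nat.cast_sub hk]; ring
          rw [h3]
          have h4 : ((k * b : ℕ) : ℤ) ≤ (K' : ℤ) := by exact_mod_cast hkb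
          push_cast at h4
          have h5 : (1 : ℤ) ≤ b := by exact_mod_cast hb
          nlinarith
        have h3 := idx_mono R h2
        have h4 : ((k - 1 : ℕ) : ℤ) = (k : ℤ) - 1 := by push_cast [Nat.cast_sub hk]; ring
        omega
      have hset : Prod.mk R ⁻¹' ((fun p : Cfg × Cfg => H97.comp p.1 p.2) ⁻¹' (cutL ⁻¹' S1) ∩
          (fun p : Cfg × Cfg => H97.comp p.1 p.2) ⁻¹' (cutR K' ⁻¹' S2)) =
          cutL ⁻¹' {Y | H97.comp (cutL R) Y ∈ S1} ∩
          cutR k ⁻¹' {Y | H97.comp (cutR K' R) (cutR 1 (sh (idx R (K' - 1)) Y)) ∈ S2} := by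
        ext Y
        simp only [Set.mem_preimage, Set.mem_inter_iff, Set.mem_ofPred_eq, cutL_comp,
          cutR_comp hK1, cutR_sh_cutR hn]
      have hm1 : MeasurableSet {Y | H97.comp (cutL R) Y ∈ S1} :=
        (hmc.comp measurable_prodMk_left) hS1
      have hm2 : MeasurableSet {Y | H97.comp (cutR K' R) (cutR 1 (sh (idx R (K' - 1)) Y)) ∈ S2} :=
        ((hmB.comp measurable_prodMk_left).comp (measurable_sh _)) hS2
      rw [hset, (indepFun_iff_measure_inter_preimage_eq_mul.1 hν.indep) _ _ hm1 hm2]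
      congr 1
      have hset2 : cutR k ⁻¹' {Y | H97.comp (cutR K' R) (cutR 1 (sh (idx R (K' - 1)) Y)) ∈ S2} =
          {Y | H97.comp (cutR K' R) (cutR 1 (sh (idx R (K' - 1)) Y)) ∈ S2} := by
        ext Y
        simp only [Set.mem_preimage, Set.mem_ofPred_eq, cutR_sh_cutR hn]
      rw [hset2, hβn]
    rw [e1, e2]
    refine Eq.trans e3 ?_
    have hind : IndepFun (fun R => α (cutL R)) (fun R => β (cutR K' R)) μ :=
      hμ'.indep.comp hα hβ
    exact lintegral_mul_eq_lintegral_mul_lintegral_of_indepFun (hα.comp hmL) (hβ.comp hmR) hind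

end Pool.Agent.H97
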