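import Pool.Agent.H97.Colouring
import Pool.Agent.H97.NetComp

set_option autoImplicit false

open MeasureTheory ProbabilityTheory Filter Topology
open scoped ENNReal

namespace Pool.Agent.H97

/-- Cylinder probabilities of the 1-dependent four-colouring. -/
noncomputable def Pr (w : List (Fin 4)) : ℝ :=
  (Bw w : ℝ) / (2 ^ w.length * (w.length + 1).factorial)

lemma Pr_nonneg (w : List (Fin 4)) : 0 ≤ Pr w := by unfold Pr; positivity

lemma Pr_nil : Pr [] = 1 := by simp [Pr, Bw_nil]

lemma Pr_identity (x y : List (Fin 4)) : ∑ a : Fin 4, Pr (x ++ a :: y) = Pr x * Pr y := by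
  have h := HL_identity (x.length + y.length) x y rfl
  have hl : ∀ a : Fin 4, (x ++ a :: y).length = x.length + y.length + 1 := by
    intro a; simp; ring
  unfold Pr
  simp_rw [hl]
  rw [← Finset.sum_div]
  have h2 : (∑ a : Fin 4, (Bw (x ++ a :: y) : ℝ)) =
      2 * ((x.length + y.length + 2).choose (x.length + 1) : ℝ) * Bw x * Bw y := by
    exact_mod_cast h
  rw [h2]
  have h3 : ((x.length + y.length + 2).choose (x.length + 1) : ℝ) *
      (x.length + 1).factorial * (y.length + 1).factorial = (x.length + y.length + 2).factorial := by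
    have := Nat.add_choose_mul_factorial_mul_factorial (y.length + 1) (x.length + 1)
    have e : y.length + 1 + (x.length + 1) = x.length + y.length + 2 := by ring
    rw [e, mul_assoc, mul_comm (y.length + 1).factorial, ← mul_assoc] at this
    exact_mod_cast this
  have h4 : (x.length + y.length + 1 + 1) = x.length + y.length + 2 := by ring
  rw [h4, ← h3]
  have p1 : ((x.length + 1).factorial : ℝ) ≠ 0 := by exact_mod_cast Nat.factorial_ne_zero _
  have p2 : ((y.length + 1).factorial : ℝ) ≠ 0 := by exact_mod_cast Nat.factorial_ne_zero _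
  have p3 : ((x.length + y.length + 2).choose (x.length + 1) : ℝ) ≠ 0 := by
    have := Nat.choose_pos (show x.length + 1 ≤ x.length + y.length + 2 by omega)
    exact_mod_cast this.ne'
  have e2 : (2 : ℝ) ^ (x.length + y.length + 1) = 2 ^ x.length * 2 ^ y.length * 2 := by
    rw [pow_succ, pow_add]
  rw [e2]
  field_simp

/-- The same as an extended nonnegative real. -/
noncomputable def pE (w : List (Fin 4)) : ℝ≥0∞ := ENNReal.ofReal (Pr w)

lemma pE_nil : pE [] = 1 := by simp [pE, Pr_nil]

lemma pE_identity (x y : List (Fin 4)) : ∑ a : Fin 4, pE (x ++ a :: y) = pE x * pE y := by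
  unfold pE
  rw [← ENNReal.ofReal_sum_of_nonneg (fun a _ => Pr_nonneg _), Pr_identity,
    ENNReal.ofReal_mul (Pr_nonneg _)]

/-- Colourings of `ℤ` (as plain maps). -/
abbrev Col : Type := ℤ → Fin 4

/-- The word read in the window `[s, s+n)`. -/
def word (η : Col) (s : ℤ) (n : ℕ) : List (Fin 4) := List.ofFn (fun i : Fin n => η (s + i))

lemma length_word (η : Col) (s : ℤ) (n : ℕ) : (word η s n).length = n := by simp [word]

lemma word_succ (η : Col) (s : ℤ) (n : ℕ) : word η s (n + 1) = η s :: word η (s + 1) n := by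
  unfold word
  rw [List.ofFn_succ]
  congr 1
  · simp
  · congr 1
    funext i
    congr 1
    simp
    ring

lemma word_add (η : Col) (s : ℤ) (m n : ℕ) : word η s (m + n) = word η s m ++ word η (s + m) n := by
  induction m generalizing s with
  | zero => simp [word]
  | succ m ih =>
    have e : m + 1 + n = (m + n) + 1 := by ring
    rw [e, word_succ, ih, word_succ, List.cons_append]
    congr 3
    push_cast
    ring

lemma word_one (η : Col) (s : ℤ) : word η s 1 = [η s] := by
  rw [show 1 = 0 + 1 by rfl, word_succ]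
  simp [word]

lemma measurableSet_word (s : ℤ) (n : ℕ) (v : List (Fin 4)) : MeasurableSet {η : Col | word η s n = v} := by
  have h : Measurable (fun η : Col => (fun i : Fin n => η (s + i))) :=
    measurable_pi_iff.2 (fun i => measurable_pi_apply _)
  exact h (MeasurableSet.of_discrete (s := {z : Fin n → Fin 4 | List.ofFn z = v}))

lemma isClopen_word (s : ℤ) (n : ℕ) (v : List (Fin 4)) : IsClopen {η : Col | word η s n = v} := by
  have h : Continuous (fun η : Col => (fun i : Fin n => η (s + i))) :=
    continuous_pi (fun i => continuous_apply _)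
  exact (isClopen_discrete {z : Fin n → Fin 4 | List.ofFn z = v}).preimage h

/-- The window marginals of `μ` are the probabilities `pE`. -/
def Claim (μ : Measure Col) (s : ℤ) (n : ℕ) : Prop :=
  ∀ v : List (Fin 4), v.length = n → μ {η | word η s n = v} = pE v

lemma measure_split (μ : Measure Col) {S : Set Col} (hS : MeasurableSet S) (t : ℤ) :
    μ S = ∑ a : Fin 4, μ (S ∩ {η | η t = a}) := by
  have h1 : S = ⋃ a : Fin 4, (S ∩ {η | η t = a}) := by
    ext η; simp
  conv_lhs => rw [h1]
  rw [measure_iUnion, tsum_fintype]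
  · intro a b hab
    rw [Function.onFun, Set.disjoint_left]
    rintro η ⟨_, h2⟩ ⟨_, h3⟩
    exact hab (h2.symm.trans h3)
  · intro a
    have h2 : MeasurableSet ((fun η : Col => η t) ⁻¹' {a}) :=
      (measurable_pi_apply t) (measurableSet_singleton a)
    exact hS.inter h2

lemma Claim.drop_last {μ : Measure Col} {s : ℤ} {n : ℕ} (h : Claim μ s (n + 1)) : Claim μ s n := by
  intro v hv
  rw [measure_split μ (measurableSet_word s n v) (s + n)]
  have h1 : ∀ a : Fin 4, {η : Col | word η s n = v} ∩ {η | η (s + n) = a} =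
      {η | word η s (n + 1) = v ++ [a]} := by
    intro a
    ext η
    simp only [Set.mem_inter_iff, Set.mem_ofPred_eq]
    rw [word_add, word_one]
    constructor
    · rintro ⟨h1, h2⟩
      rw [h1, h2]
    · intro h1
      have h2 := List.append_inj h1 (by rw [length_word, hv])
      exact ⟨h2.1, by simpa using h2.2⟩
  simp_rw [h1]
  rw [Finset.sum_congr rfl (fun a _ => h (v ++ [a]) (by simp [hv])), pE_identity, pE_nil, mul_one]

lemma Claim.drop_first {μ : Measure Col} {s : ℤ} {n : ℕ} (h : Claim μ s (n + 1)) :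
    Claim μ (s + 1) n := by
  intro v hv
  rw [measure_split μ (measurableSet_word (s + 1) n v) s]
  have h1 : ∀ a : Fin 4, {η : Col | word η (s + 1) n = v} ∩ {η | η s = a} =
      {η | word η s (n + 1) = a :: v} := by
    intro a
    ext η
    simp only [Set.mem_inter_iff, Set.mem_ofPred_eq]
    rw [word_succ, List.cons_eq_cons]
    tauto
  simp_rw [h1]
  rw [Finset.sum_congr rfl (fun a _ => h (a :: v) (by simp [hv]))]
  have := pE_identity [] v
  simp only [List.nil_append, pE_nil, one_mul] at this
  exact this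

lemma Claim.sub {μ : Measure Col} {s : ℤ} {n k l : ℕ} (h : Claim μ s (k + n + l)) :
    Claim μ (s + k) n := by
  have h1 : Claim μ s (k + n) := by
    induction l with
    | zero => simpa using h
    | succ l ih => exact ih (Claim.drop_last h)
  clear h
  induction k generalizing s with
  | zero => simpa using h1
  | succ k ih =>
    have h2 : Claim μ (s + 1) (k + n) := by
      apply Claim.drop_first
      have e : k + n + 1 = k + 1 + n := by ring
      rw [e]; exact h1
    have h3 := ih h2
    have e : s + 1 + (k : ℤ) = s + ((k + 1 : ℕ) : ℤ) := by push_cast; ring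
    rw [e] at h3
    exact h3

/-! ### Finite approximations -/

/-- Extension of a word on the window `[-N, N]` by the colour `0`. -/
def extw (N : ℕ) (w : Fin (2 * N + 1) → Fin 4) : Col := fun x =>
  if h : -(N : ℤ) ≤ x ∧ x ≤ N then w ⟨(x + N).toNat, by omega⟩ else 0

lemma word_extw (N : ℕ) (w : Fin (2 * N + 1) → Fin 4) :
    word (extw N w) (-(N : ℤ)) (2 * N + 1) = List.ofFn w := by
  unfold word
  congr 1
  funext i
  unfold extw
  have hi := i.2
  rw [dif_pos (by omega)]
  congr 1
  ext
  simp

noncomputable def muN (N : ℕ) : Measure Col :=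
  ∑ w : Fin (2 * N + 1) → Fin 4, pE (List.ofFn w) • Measure.dirac (extw N w)

lemma exists_ofFn {n : ℕ} (v : List (Fin 4)) (hv : v.length = n) :
    ∃ z : Fin n → Fin 4, v = List.ofFn z := by
  subst hv
  exact ⟨v.get, (List.ofFn_get v).symm⟩

lemma claim_muN (N : ℕ) : Claim (muN N) (-(N : ℤ)) (2 * N + 1) := by
  intro v hv
  unfold muN
  have hms := measurableSet_word (-(N : ℤ)) (2 * N + 1) v
  rw [Measure.coe_finsetSum, Finset.sum_apply]
  simp_rw [Measure.smul_apply, Measure.dirac_apply' _ hms, smul_eq_mul]
  obtain ⟨z, rfl⟩ := exists_ofFn v hv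
  rw [Finset.sum_eq_single z]
  · rw [Set.indicator_of_mem]
    · simp
    · exact word_extw N z
  · intro w _ hw
    rw [Set.indicator_of_notMem]
    · simp
    · intro hmem
      have h1 : word (extw N w) (-(N : ℤ)) (2 * N + 1) = List.ofFn z := hmem
      rw [word_extw] at h1
      exact hw (List.ofFn_injective h1)
  · intro h; exact absurd (Finset.mem_univ z) h

lemma claim_muN_sub (N : ℕ) (s : ℤ) (n : ℕ) (h1 : -(N : ℤ) ≤ s) (h2 : s + n ≤ N + 1) :
    Claim (muN N) s n := by
  have h := claim_muN N
  have e1 : 2 * N + 1 = (s + N).toNat + n + (N + 1 - s - n).toNat := by omega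
  rw [e1] at h
  have h3 := h.sub
  have e2 : -(N : ℤ) + ((s + N).toNat : ℤ) = s := by omega
  rw [e2] at h3
  exact h3

lemma isProb_of_claim {μ : Measure Col} {s : ℤ} (h : Claim μ s 0) : IsProbabilityMeasure μ := by
  constructor
  have h1 := h [] rfl
  have h2 : {η : Col | word η s 0 = []} = Set.univ := by
    ext η; simp [word]
  rw [h2, pE_nil] at h1
  exact h1

instance (N : ℕ) : IsProbabilityMeasure (muN N) :=
  isProb_of_claim (claim_muN_sub N 0 0 (by omega) (by omega))

/-- Existence of the 1-dependent four-colouring. -/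
theorem exists_colouring : ∃ μ : Measure Col, IsProbabilityMeasure μ ∧ ∀ s n, Claim μ s n := by
  let u : ℕ → ProbabilityMeasure Col := fun N => ⟨muN N, inferInstance⟩
  obtain ⟨π, hπ⟩ : ∃ π, MapClusterPt π atTop u := exists_clusterPt_of_compactSpace _
  rw [mapClusterPt_iff_ultrafilter] at hπ
  obtain ⟨U, hU, hUπ⟩ := hπ
  refine ⟨π, inferInstance, fun s n v hv => ?_⟩
  have h1 := ProbabilityMeasure.tendsto_measure_of_isClopen_of_tendsto hUπ (isClopen_word s n v)
  have h2 : Tendsto (fun N => (u N : Measure Col) {η | word η s n = v}) U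
      (𝓝 ((π : Measure Col) {η | word η s n = v})) := by
    have h3 := (ENNReal.continuous_coe.tendsto _).comp h1
    simpa [Function.comp_def] using h3
  have h4 : ∀ᶠ N in (U : Filter ℕ), (u N : Measure Col) {η | word η s n = v} = pE v := by
    filter_upwards [hU (eventually_ge_atTop (s.natAbs + n))] with N hN
    exact claim_muN_sub N s n (by omega) (by omega) v hv
  have h5 : Tendsto (fun N => (u N : Measure Col) {η | word η s n = v}) U (𝓝 (pE v)) :=
    tendsto_const_nhds.congr' (h4.mono fun N h => h.symm)
  exact tendsto_nhds_unique h2 h5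

/-- window map -/
def win (s : ℤ) (n : ℕ) (η : Col) : Fin n → Fin 4 := fun i => η (s + i)

lemma measurable_win (s : ℤ) (n : ℕ) : Measurable (win s n) :=
  measurable_pi_iff.2 (fun _ => measurable_pi_apply _)

lemma win_preimage (s : ℤ) (n : ℕ) (z : Fin n → Fin 4) :
    win s n ⁻¹' {z} = {η | word η s n = List.ofFn z} := by
  ext η
  simp only [Set.mem_preimage, Set.mem_singleton_iff, Set.mem_ofPred_eq]
  constructor
  · intro h; rw [← h]; rfl
  · intro h; exact List.ofFn_injective h

lemma Claim.win {μ : Measure Col} {s : ℤ} {n : ℕ} (h : Claim μ s n) (z : Fin n → Fin 4) :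
    μ.map (win s n) {z} = pE (List.ofFn z) := by
  rw [Measure.map_apply (measurable_win s n) (measurableSet_singleton z), win_preimage]
  exact h _ (by simp)

lemma eq_of_claim {μ ν : Measure Col} (hμ : ∀ s n, Claim μ s n) (hν : ∀ s n, Claim ν s n) :
    μ = ν := by
  have := isProb_of_claim (hμ 0 0)
  have := isProb_of_claim (hν 0 0)
  refine ext_of_generate_finite (measurableCylinders (fun _ : ℤ => Fin 4))
    (generateFrom_measurableCylinders).symm isPiSystem_measurableCylinders (fun S hS => ?_) (by simp)
  obtain ⟨s, T, hT, rfl⟩ := (mem_measurableCylinders S).1 hS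
  obtain ⟨N, hN⟩ : ∃ N : ℕ, ∀ i ∈ s, -(N : ℤ) ≤ i ∧ i ≤ N := by
    refine ⟨s.sup Int.natAbs, fun i hi => ?_⟩
    have : i.natAbs ≤ s.sup Int.natAbs := Finset.le_sup (f := Int.natAbs) hi
    omega
  let g : (Fin (2 * N + 1) → Fin 4) → (s → Fin 4) := fun z j =>
    z ⟨(j.1 + N).toNat, by have := hN j.1 j.2; omega⟩
  have hg : Measurable g := measurable_of_countable g
  have hcyl : cylinder s T = (H97.win (-(N : ℤ)) (2 * N + 1)) ⁻¹' (g ⁻¹' T) := by
    ext η
    simp only [mem_cylinder, Set.mem_preimage]
    have : s.restrict η = g (H97.win (-(N : ℤ)) (2 * N + 1) η) := by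
      funext j
      have hj := hN j.1 j.2
      simp only [g, H97.win, Finset.restrict]
      congr 1
      omega
    rw [this]
  have hmap : μ.map (H97.win (-(N : ℤ)) (2 * N + 1)) = ν.map (H97.win (-(N : ℤ)) (2 * N + 1)) := by
    apply Measure.ext_of_singleton
    intro z
    rw [(hμ _ _).win, (hν _ _).win]
  rw [hcyl, ← Measure.map_apply (measurable_win _ _) (hg hT), hmap,
    Measure.map_apply (measurable_win _ _) (hg hT)]

/-- shift of colourings -/
def shc (t : ℤ) (η : Col) : Col := fun x => η (x + t)

lemma measurable_shc (t : ℤ) : Measurable (shc t) :=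
  measurable_pi_iff.2 (fun x => measurable_pi_apply (x + t))

lemma stationary_of_claim {μ : Measure Col} (hμ : ∀ s n, Claim μ s n) (t : ℤ) :
    μ.map (shc t) = μ := by
  refine eq_of_claim (fun s n v hv => ?_) hμ
  rw [Measure.map_apply (measurable_shc t) (measurableSet_word s n v)]
  have : shc t ⁻¹' {η | word η s n = v} = {η | word η (s + t) n = v} := by
    ext η
    simp only [Set.mem_preimage, Set.mem_ofPred_eq]
    have : word (shc t η) s n = word η (s + t) n := by
      unfold word shc
      congr 1
      funext i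
      congr 1
      ring
    rw [this]
  rw [this]
  exact hμ _ _ v hv

/-! ### Independence -/

lemma joint {μ : Measure Col} (hμ : ∀ s n, Claim μ s n) (m n : ℕ) (x y : List (Fin 4))
    (hx : x.length = m) (hy : y.length = n) :
    μ ({η | word η (2 - m) m = x} ∩ {η | word η 3 n = y}) = pE x * pE y := by
  rw [measure_split μ ((measurableSet_word _ _ _).inter (measurableSet_word _ _ _)) 2,
    ← pE_identity]
  refine Finset.sum_congr rfl (fun a _ => ?_)
  rw [← hμ (2 - m) (m + (n + 1)) (x ++ a :: y) (by simp [hx, hy])]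
  congr 1
  ext η
  simp only [Set.mem_inter_iff, Set.mem_ofPred_eq]
  rw [word_add, word_succ]
  have e1 : (2 - (m : ℤ)) + m = 2 := by ring
  rw [e1]
  have e2 : (2 : ℤ) + 1 = 3 := by norm_num
  rw [e2]
  constructor
  · rintro ⟨⟨h1, h2⟩, h3⟩
    rw [h1, h2, h3]
  · intro h
    have h2 := List.append_inj h (by rw [length_word, hx])
    have h3 := h2.2
    rw [List.cons_eq_cons] at h3
    exact ⟨⟨h2.1, h3.2⟩, h3.1⟩

lemma indep_win {μ : Measure Col} (hμ : ∀ s n, Claim μ s n) (m n : ℕ) :
    IndepFun (win (2 - m) m) (win 3 n) μ := by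
  have := isProb_of_claim (hμ 0 0)
  rw [indepFun_iff_map_prod_eq_prod_map_map (measurable_win _ _).aemeasurable
    (measurable_win _ _).aemeasurable]
  apply Measure.ext_of_singleton
  rintro ⟨x, y⟩
  rw [← Set.singleton_prod_singleton, Measure.prod_prod, (hμ _ _).win, (hμ _ _).win,
    Measure.map_apply ((measurable_win _ _).prodMk (measurable_win _ _))
      ((measurableSet_singleton x).prod (measurableSet_singleton y)),
    ← joint hμ m n (List.ofFn x) (List.ofFn y) (by simp) (by simp)]
  congr 1
  rw [← win_preimage, ← win_preimage]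
  ext η
  simp

def cutLc (η : Col) : Col := fun i => if i ≤ 1 then η i else 0
def cutRc (η : Col) : Col := fun i => if 3 ≤ i then η i else 0

lemma indep_cut {μ : Measure Col} (hμ : ∀ s n, Claim μ s n) : IndepFun cutLc cutRc μ := by
  have := isProb_of_claim (hμ 0 0)
  refine IndepFun.process_indepFun_process (X := fun (i : ℤ) (η : Col) => if i ≤ 1 then η i else 0)
    (Y := fun (i : ℤ) (η : Col) => if 3 ≤ i then η i else 0) ?_ ?_ ?_
  · intro i
    split_ifs
    · exact measurable_pi_apply i
    · exact measurable_const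
  · intro i
    split_ifs
    · exact measurable_pi_apply i
    · exact measurable_const
  · intro I J
    obtain ⟨m, hm⟩ : ∃ m : ℕ, ∀ i ∈ I, 2 - (m : ℤ) ≤ i := by
      refine ⟨I.sup Int.natAbs + 2, fun i hi => ?_⟩
      have : i.natAbs ≤ I.sup Int.natAbs := Finset.le_sup (f := Int.natAbs) hi
      push_cast
      omega
    obtain ⟨n, hn⟩ : ∃ n : ℕ, ∀ i ∈ J, i < 3 + (n : ℤ) := by
      refine ⟨J.sup Int.natAbs, fun i hi => ?_⟩
      have : i.natAbs ≤ J.sup Int.natAbs := Finset.le_sup (f := Int.natAbs) hi
      omega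
    let φ : (Fin m → Fin 4) → (I → Fin 4) := fun z i =>
      if h : i.1 ≤ 1 then z ⟨(i.1 - (2 - m)).toNat, by have := hm i.1 i.2; omega⟩ else 0
    let ψ : (Fin n → Fin 4) → (J → Fin 4) := fun z i =>
      if h : 3 ≤ i.1 then z ⟨(i.1 - 3).toNat, by have := hn i.1 i.2; omega⟩ else 0
    have h1 := (indep_win hμ m n).comp (measurable_of_countable φ) (measurable_of_countable ψ)
    have e1 : φ ∘ win (2 - m) m = fun (η : Col) (i : I) => if i.1 ≤ 1 then η i.1 else 0 := by
      funext η i
      simp only [Function.comp_apply, φ, win]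
      split_ifs with h
      · congr 1
        have := hm i.1 i.2
        omega
      · rfl
    have e2 : ψ ∘ win 3 n = fun (η : Col) (i : J) => if 3 ≤ i.1 then η i.1 else 0 := by
      funext η i
      simp only [Function.comp_apply, ψ, win]
      split_ifs with h
      · congr 1
        omega
      · rfl
    rw [e1, e2] at h1
    exact h1

/-! ### Properness and the base net -/

lemma ae_proper {μ : Measure Col} (hμ : ∀ s n, Claim μ s n) :
    ∀ᵐ η ∂μ, ∀ x : ℤ, η x ≠ η (x + 1) := by
  rw [ae_all_iff]
  intro x
  rw [ae_iff]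
  have h1 : {η : Col | ¬ η x ≠ η (x + 1)} ⊆ ⋃ a : Fin 4, {η | word η x 2 = [a, a]} := by
    intro η hη
    simp only [ne_eq, not_not, Set.mem_ofPred_eq] at hη
    simp only [Set.mem_iUnion, Set.mem_ofPred_eq]
    refine ⟨η x, ?_⟩
    rw [show 2 = 1 + 1 by rfl, word_succ, word_one, ← hη]
  refine measure_mono_null h1 ?_
  rw [measure_iUnion_null_iff]
  intro a
  rw [hμ x 2 [a, a] rfl]
  have h2 : Bw [a, a] = 0 := Bw_of_not_chain (not_chain_pair [] [] a)
  simp [pE, Pr, h2]

/-- Local maxima of a colouring. -/
def peak (η : Col) : Cfg := fun x => decide (η (x - 1) < η x ∧ η (x + 1) < η x)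

lemma measurable_peak : Measurable peak := by
  refine measurable_pi_iff.2 (fun x => ?_)
  have h : Measurable (fun η : Col => (η (x - 1), η x, η (x + 1))) :=
    (measurable_pi_apply _).prodMk ((measurable_pi_apply _).prodMk (measurable_pi_apply _))
  exact (measurable_of_countable
    (fun q : Fin 4 × Fin 4 × Fin 4 => decide (q.1 < q.2.1 ∧ q.2.2 < q.2.1))).comp h

lemma peak_true {η : Col} {x : ℤ} : peak η x = true ↔ η (x - 1) < η x ∧ η (x + 1) < η x := by
  simp [peak]

lemma sh_peak (t : ℤ) (η : Col) : sh t (peak η) = peak (shc t η) := by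
  funext x
  unfold sh peak shc
  rw [show x + t - 1 = x - 1 + t by ring, show x + t + 1 = x + 1 + t by ring]

lemma isNet_peak {η : Col} (hη : ∀ x : ℤ, η x ≠ η (x + 1)) : IsNet 2 6 (peak η) := by
  constructor
  · intro x y hx hy hxy
    by_contra hcon
    have hy' : y = x + 1 := by omega
    subst hy'
    rw [peak_true] at hx hy
    have h1 := hx.2
    have h2 := hy.1
    rw [show x + 1 - 1 = x by ring] at h2
    exact absurd h1 (not_lt.2 h2.le)
  · intro x
    by_contra hcon
    push Not at hcon
    -- values as natural numbers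
    let f : ℕ → ℕ := fun i => (η (x + i)).val
    have hf4 : ∀ i, f i < 4 := fun i => (η (x + i)).isLt
    have hne : ∀ i, f i ≠ f (i + 1) := by
      intro i h
      apply hη (x + i)
      have : x + (i : ℤ) + 1 = x + ((i + 1 : ℕ) : ℤ) := by push_cast; ring
      rw [this]
      exact Fin.ext h
    have hstep : ∀ i, i + 1 ≤ 6 → f i < f (i + 1) → f (i + 1) < f (i + 2) := by
      intro i hi hlt
      by_contra hle
      have h1 := hcon (x + (i + 1 : ℕ)) (by push_cast; omega) (by push_cast; omega)
      apply h1
      rw [peak_true]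
      have e1 : x + ((i + 1 : ℕ) : ℤ) - 1 = x + i := by push_cast; ring
      have e2 : x + ((i + 1 : ℕ) : ℤ) + 1 = x + ((i + 2 : ℕ) : ℤ) := by push_cast; ring
      rw [e1, e2]
      have h2 := hne (i + 1)
      refine ⟨hlt, ?_⟩
      change f (i + 2) < f (i + 1)
      have h3 : f (i + 1) ≠ f (i + 2) := h2
      omega
    have hup : ∀ k, k ≤ 3 → ¬ f k < f (k + 1) := by
      intro k hk h
      have h1 : f (k + 1) < f (k + 2) := hstep k (by omega) h
      have h2 : f (k + 2) < f (k + 3) := hstep (k + 1) (by omega) h1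
      have h3 : f (k + 3) < f (k + 4) := hstep (k + 2) (by omega) h2
      have h4 := hf4 (k + 4)
      omega
    have h0 := hup 0 (by omega)
    have h1 := hup 1 (by omega)
    have h2 := hup 2 (by omega)
    have h3 := hup 3 (by omega)
    have n0 := hne 0
    have n1 := hne 1
    have n2 := hne 2
    have n3 := hne 3
    have b0 := hf4 0
    simp only [zero_add, Nat.reduceAdd] at *
    omega

lemma cutL_peak (η : Col) : cutL (peak η) = cutL (peak (cutLc η)) := by
  funext x
  by_cases hx : x ≤ 0
  · have a1 : cutLc η (x - 1) = η (x - 1) := if_pos (by omega)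
    have a2 : cutLc η x = η x := if_pos (by omega)
    have a3 : cutLc η (x + 1) = η (x + 1) := if_pos (by omega)
    simp only [cutL, if_pos hx]
    rw [Bool.eq_iff_iff, peak_true, peak_true, a1, a2, a3]
  · simp [cutL, hx]

lemma cutR_peak (η : Col) : cutR 4 (peak η) = cutR 4 (peak (cutRc η)) := by
  funext x
  by_cases hx : 4 ≤ x
  · have a1 : cutRc η (x - 1) = η (x - 1) := if_pos (by omega)
    have a2 : cutRc η x = η x := if_pos (by omega)
    have a3 : cutRc η (x + 1) = η (x + 1) := if_pos (by omega)
    simp only [cutR, if_pos hx]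
    rw [Bool.eq_iff_iff, peak_true, peak_true, a1, a2, a3]
  · simp [cutR, hx]

theorem exists_base : ∃ μ, Good 2 6 4 μ := by
  obtain ⟨μ, hprob, hμ⟩ := exists_colouring
  have hm := measurable_peak
  refine ⟨μ.map peak, Measure.isProbabilityMeasure_map hm.aemeasurable, ?_, ?_, ?_⟩
  · intro t
    rw [Measure.map_map (measurable_sh t) hm]
    have h1 : sh t ∘ peak = peak ∘ shc t := by
      funext η; exact sh_peak t η
    rw [h1, ← Measure.map_map hm (measurable_shc t), stationary_of_claim hμ t]
  · have h1 : ∀ᵐ η ∂μ, IsNet 2 6 (peak η) := by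
      filter_upwards [ae_proper hμ] with η hη
      exact isNet_peak hη
    exact (ae_map_iff hm.aemeasurable (measurableSet_isNet 2 6)).2 h1
  · have h1 : IndepFun (cutL ∘ peak) (cutR 4 ∘ peak) μ := by
      have h2 := (indep_cut hμ).comp (measurable_cutL.comp hm) ((measurable_cutR 4).comp hm)
      have e1 : (cutL ∘ peak) ∘ cutLc = cutL ∘ peak := by
        funext η; exact (cutL_peak η).symm
      have e2 : (cutR 4 ∘ peak) ∘ cutRc = cutR 4 ∘ peak := by
        funext η; exact (cutR_peak η).symm
      rw [e1, e2] at h2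
      exact h2
    rw [indepFun_iff_measure_inter_preimage_eq_mul] at h1 ⊢
    intro S1 S2 hS1 hS2
    have hmR : MeasurableSet (cutR ((4 : ℕ) : ℤ) ⁻¹' S2) := (measurable_cutR _) hS2
    rw [Measure.map_apply hm ((measurable_cutL hS1).inter hmR),
      Measure.map_apply hm (measurable_cutL hS1), Measure.map_apply hm hmR]
    exact h1 S1 S2 hS1 hS2

end Pool.Agent.H97
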