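import Pool.Agent.H97.NetBasic

set_option autoImplicit false

open MeasureTheory ProbabilityTheory Filter Topology
open scoped ENNReal

namespace Pool.Agent.H97

/-! ### The weights of Holroyd and Liggett (four colours) -/

/-- Number of proper buildings, with an explicit length argument. -/
def Bn : ℕ → List (Fin 4) → ℕ
  | 0, _ => 1
  | n + 1, w => if w.IsChain (· ≠ ·) then ∑ i ∈ Finset.range (n + 1), Bn n (w.eraseIdx i) else 0

def Bw (w : List (Fin 4)) : ℕ := Bn w.length w

lemma Bw_nil : Bw [] = 1 := rfl

lemma Bw_of_not_chain {w : List (Fin 4)} (h : ¬ w.IsChain (· ≠ ·)) : Bw w = 0 := by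
  rcases w with _ | ⟨a, w⟩
  · exact absurd List.isChain_nil h
  · unfold Bw
    rw [List.length_cons, Bn, if_neg h]

lemma Bw_of_chain {w : List (Fin 4)} (h : w.IsChain (· ≠ ·)) (hne : w ≠ []) :
    Bw w = ∑ i ∈ Finset.range w.length, Bw (w.eraseIdx i) := by
  rcases w with _ | ⟨a, w⟩
  · exact absurd rfl hne
  · unfold Bw
    rw [List.length_cons, Bn, if_pos h]
    refine Finset.sum_congr rfl (fun i hi => ?_)
    have hi' : i < (a :: w).length := by simpa using Finset.mem_range.1 hi
    rw [List.length_eraseIdx_of_lt hi']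
    simp

lemma not_chain_pair (l r : List (Fin 4)) (a : Fin 4) : ¬ (l ++ a :: a :: r).IsChain (· ≠ ·) := by
  intro h
  rw [List.isChain_append] at h
  have h2 := h.2.1
  rw [List.isChain_cons_cons] at h2
  exact h2.1 rfl

lemma chain_insert {x y : List (Fin 4)} {a : Fin 4} (hx : x.IsChain (· ≠ ·)) (hy : y.IsChain (· ≠ ·))
    (h1 : x.getLast? ≠ some a) (h2 : y.head? ≠ some a) : (x ++ a :: y).IsChain (· ≠ ·) := by
  rw [List.isChain_append]
  refine ⟨hx, ?_, ?_⟩
  · rw [List.isChain_cons]
    refine ⟨fun b hb => ?_, hy⟩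
    rintro rfl
    exact h2 hb
  · intro b hb c hc
    simp only [List.head?_cons, Option.mem_def, Option.some.injEq] at hc
    subst hc
    rintro rfl
    exact h1 hb

lemma sum_split (f : ℕ → ℕ) (m n : ℕ) : ∑ i ∈ Finset.range (m + (n + 1)), f i =
    ∑ i ∈ Finset.range m, f i + f m + ∑ j ∈ Finset.range n, f (m + (j + 1)) := by
  rw [Finset.sum_range_add, Finset.sum_range_succ', add_assoc]
  congr 1
  rw [add_comm]
  simp

/-- sum of the weights of the words obtained by deleting a letter of the left part -/
def SX (x y : List (Fin 4)) (a : Fin 4) : ℕ :=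
  ∑ i ∈ Finset.range x.length, Bw (x.eraseIdx i ++ a :: y)

/-- sum of the weights of the words obtained by deleting a letter of the right part -/
def SY (x y : List (Fin 4)) (a : Fin 4) : ℕ :=
  ∑ j ∈ Finset.range y.length, Bw (x ++ a :: y.eraseIdx j)

lemma Bw_insert {x y : List (Fin 4)} {a : Fin 4} (h : (x ++ a :: y).IsChain (· ≠ ·)) :
    Bw (x ++ a :: y) = SX x y a + Bw (x ++ y) + SY x y a := by
  rw [Bw_of_chain h (by simp)]
  have hl : (x ++ a :: y).length = x.length + (y.length + 1) := by simp
  rw [hl, sum_split]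
  unfold SX SY
  congr 1
  · congr 1
    · refine Finset.sum_congr rfl (fun i hi => ?_)
      rw [List.eraseIdx_append_of_lt_length (Finset.mem_range.1 hi)]
    · rw [List.eraseIdx_append_of_length_le le_rfl, Nat.sub_self]
      rfl
  · refine Finset.sum_congr rfl (fun j _ => ?_)
    rw [List.eraseIdx_append_of_length_le (by omega)]
    have : x.length + (j + 1) - x.length = j + 1 := by omega
    rw [this]
    rfl

lemma SX_last {x' y : List (Fin 4)} {a : Fin 4} (_h : y.head? ≠ some a) :
    SX (x' ++ [a]) y a = Bw (x' ++ [a] ++ y) := by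
  unfold SX
  have hl : (x' ++ [a]).length = x'.length + 1 := by simp
  rw [hl, Finset.sum_range_succ]
  have h1 : ∑ i ∈ Finset.range x'.length, Bw ((x' ++ [a]).eraseIdx i ++ a :: y) = 0 := by
    refine Finset.sum_eq_zero (fun i hi => ?_)
    rw [List.eraseIdx_append_of_lt_length (Finset.mem_range.1 hi)]
    apply Bw_of_not_chain
    simp
  rw [h1, zero_add, List.eraseIdx_append_of_length_le le_rfl, Nat.sub_self]
  simp

lemma SY_last (x' y : List (Fin 4)) (a : Fin 4) : SY (x' ++ [a]) y a = 0 := by
  unfold SY
  refine Finset.sum_eq_zero (fun j _ => ?_)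
  apply Bw_of_not_chain
  simp

lemma SY_head (x y' : List (Fin 4)) (a : Fin 4) : SY x (a :: y') a = Bw (x ++ a :: y') := by
  unfold SY
  rw [List.length_cons, Finset.sum_range_succ']
  have h1 : ∑ j ∈ Finset.range y'.length, Bw (x ++ a :: (a :: y').eraseIdx (j + 1)) = 0 := by
    refine Finset.sum_eq_zero (fun j _ => ?_)
    apply Bw_of_not_chain
    exact not_chain_pair x (y'.eraseIdx j) a
  rw [h1, zero_add]
  rfl

lemma SX_head (x y' : List (Fin 4)) (a : Fin 4) : SX x (a :: y') a = 0 := by
  unfold SX
  refine Finset.sum_eq_zero (fun i _ => ?_)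
  apply Bw_of_not_chain
  exact not_chain_pair (x.eraseIdx i) y' a

/-- The pointwise identity. -/
lemma pointwise {x y : List (Fin 4)} (hx : x.IsChain (· ≠ ·)) (hy : y.IsChain (· ≠ ·)) (a : Fin 4) :
    SX x y a + SY x y a + Bw (x ++ y) = Bw (x ++ a :: y) +
      2 * ((if x.getLast? = some a then 1 else 0) + (if y.head? = some a then 1 else 0)) *
        Bw (x ++ y) := by
  by_cases h1 : x.getLast? = some a
  · obtain ⟨x', rfl⟩ := List.getLast?_eq_some_iff.1 h1
    by_cases h2 : y.head? = some a
    · obtain ⟨y', rfl⟩ := List.head?_eq_some_iff.1 h2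
      have e1 : Bw (x' ++ [a] ++ a :: y') = 0 := by
        apply Bw_of_not_chain
        simp
      have e2 : Bw (x' ++ [a] ++ a :: a :: y') = 0 := Bw_of_not_chain (not_chain_pair _ _ _)
      rw [SY_last, SX_head, e1, e2]
      simp
    · have e2 : Bw (x' ++ [a] ++ a :: y) = 0 := by
        apply Bw_of_not_chain
        simp
      rw [SY_last, SX_last h2, e2, if_pos h1, if_neg h2]
      ring
  · by_cases h2 : y.head? = some a
    · obtain ⟨y', rfl⟩ := List.head?_eq_some_iff.1 h2
      have e2 : Bw (x ++ a :: a :: y') = 0 := Bw_of_not_chain (not_chain_pair _ _ _)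
      rw [SY_head, SX_head, e2, if_neg h1, if_pos h2]
      ring
    · rw [Bw_insert (chain_insert hx hy h1 h2), if_neg h1, if_neg h2]
      ring

lemma sum_if_getLast (x : List (Fin 4)) :
    ∑ a : Fin 4, (if x.getLast? = some a then 1 else 0) = if x = [] then 0 else 1 := by
  by_cases h : x = []
  · subst h; simp
  · obtain ⟨b, hb⟩ : ∃ b, x.getLast? = some b := ⟨x.getLast h, List.getLast?_eq_some_getLast h⟩
    rw [hb, if_neg h]
    simp

lemma sum_if_head (x : List (Fin 4)) :
    ∑ a : Fin 4, (if x.head? = some a then 1 else 0) = if x = [] then 0 else 1 := by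
  rcases x with _ | ⟨b, x⟩
  · simp
  · simp

/-- **The Holroyd-Liggett identity** for four colours. -/
theorem HL_identity (n : ℕ) : ∀ x y : List (Fin 4), x.length + y.length = n →
    ∑ a : Fin 4, Bw (x ++ a :: y) =
      2 * (x.length + y.length + 2).choose (x.length + 1) * Bw x * Bw y := by
  induction n with
  | zero =>
    intro x y hn
    have hx : x = [] := List.eq_nil_of_length_eq_zero (by omega)
    have hy : y = [] := List.eq_nil_of_length_eq_zero (by omega)
    subst hx; subst hy
    decide
  | succ n ih =>
    intro x y hn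
    by_cases hx : x.IsChain (· ≠ ·)
    swap
    · have h1 : ∀ a : Fin 4, Bw (x ++ a :: y) = 0 := fun a => Bw_of_not_chain (fun h =>
        hx (List.isChain_append.1 h).1)
      rw [Finset.sum_eq_zero (fun a _ => h1 a), Bw_of_not_chain hx]
      ring
    by_cases hy : y.IsChain (· ≠ ·)
    swap
    · have h1 : ∀ a : Fin 4, Bw (x ++ a :: y) = 0 := fun a => Bw_of_not_chain (fun h =>
        hy ((List.isChain_append.1 h).2.1.tail))
      rw [Finset.sum_eq_zero (fun a _ => h1 a), Bw_of_not_chain hy]
      ring
    -- sum of the pointwise identities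
    have hsum : ∑ a : Fin 4, SX x y a + ∑ a : Fin 4, SY x y a + 4 * Bw (x ++ y) =
        ∑ a : Fin 4, Bw (x ++ a :: y) +
          2 * ((if x = [] then 0 else 1) + (if y = [] then 0 else 1)) * Bw (x ++ y) := by
      have h := Finset.sum_congr (rfl : (Finset.univ : Finset (Fin 4)) = Finset.univ)
        (fun a _ => pointwise hx hy a)
      rw [Finset.sum_add_distrib, Finset.sum_add_distrib, Finset.sum_add_distrib] at h
      rw [← Finset.sum_mul, ← Finset.mul_sum, Finset.sum_add_distrib, sum_if_getLast,
        sum_if_head] at h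
      simpa using h
    have hX : ∑ a : Fin 4, SX x y a + (if x = [] then 2 * Bw (x ++ y) else 0) =
        2 * (x.length + y.length + 1).choose x.length * Bw x * Bw y := by
      by_cases hx0 : x = []
      · subst hx0
        simp [SX, Bw_nil]
      · rw [if_neg hx0, add_zero, Bw_of_chain hx hx0]
        unfold SX
        rw [Finset.sum_comm, Finset.mul_sum, Finset.sum_mul]
        refine Finset.sum_congr rfl (fun i hi => ?_)
        have hi' := Finset.mem_range.1 hi
        have hl : (x.eraseIdx i).length = x.length - 1 := List.length_eraseIdx_of_lt hi'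
        rw [ih (x.eraseIdx i) y (by rw [hl]; omega), hl]
        have e1 : x.length - 1 + y.length + 2 = x.length + y.length + 1 := by omega
        have e2 : x.length - 1 + 1 = x.length := by omega
        rw [e1, e2]
    have hY : ∑ a : Fin 4, SY x y a + (if y = [] then 2 * Bw (x ++ y) else 0) =
        2 * (x.length + y.length + 1).choose (x.length + 1) * Bw x * Bw y := by
      by_cases hy0 : y = []
      · subst hy0
        simp [SY, Bw_nil]
      · rw [if_neg hy0, add_zero, Bw_of_chain hy hy0]
        unfold SY
        rw [Finset.sum_comm, Finset.mul_sum]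
        refine Finset.sum_congr rfl (fun i hi => ?_)
        have hi' := Finset.mem_range.1 hi
        have hl : (y.eraseIdx i).length = y.length - 1 := List.length_eraseIdx_of_lt hi'
        rw [ih x (y.eraseIdx i) (by rw [hl]; omega), hl]
        have e1 : x.length + (y.length - 1) + 2 = x.length + y.length + 1 := by omega
        rw [e1]
    have hpascal : (x.length + y.length + 2).choose (x.length + 1) =
        (x.length + y.length + 1).choose x.length +
          (x.length + y.length + 1).choose (x.length + 1) := Nat.choose_succ_succ _ _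
    have hgoal : 2 * (x.length + y.length + 2).choose (x.length + 1) * Bw x * Bw y =
        (∑ a : Fin 4, SX x y a + (if x = [] then 2 * Bw (x ++ y) else 0)) +
        (∑ a : Fin 4, SY x y a + (if y = [] then 2 * Bw (x ++ y) else 0)) := by
      rw [hX, hY, hpascal]; ring
    rw [hgoal]
    by_cases hx0 : x = [] <;> by_cases hy0 : y = [] <;>
      simp only [hx0, hy0, if_true, if_false, List.nil_append, List.append_nil] at hsum ⊢ <;> omega

end Pool.Agent.H97
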