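import Pool.Agent.H97.LimitLaw

set_option autoImplicit false

open MeasureTheory ProbabilityTheory Filter Topology BoundedContinuousFunction
open scoped ENNReal

namespace Pool.Agent.H97

section
variable {μ : ℕ → Measure Cfg} (hμ : ∀ j, Good (Aj j) (3 * Aj j) (49152 * Aj j) (μ j))
  {P : Measure TT} {U : Filter ℕ} [IsProbabilityMeasure P] [U.NeBot]
  (hlim : ∀ f : TT → ℝ, Continuous f →
        Tendsto (fun j => ∫ η, f (Theta (Aj j) (Aj_pos j) η) ∂(μ j)) U (𝓝 (∫ T, f T ∂P)))

include hμ hlim

lemma indep_Fs {ι κ : Type} [Fintype ι] [Fintype κ] (l r : ι → ℝ) (l' r' : κ → ℝ)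
    (hr : ∀ i, r i ≤ 0) (hl' : ∀ i, 49154 ≤ l' i) :
    IndepFun (Fs l r) (Fs l' r') P := by
  refine indepFun_of_bcf (continuous_Fs l r).measurable.aemeasurable
    (continuous_Fs l' r').measurable.aemeasurable (fun f g => ?_)
  have c1 : Continuous (fun T : TT => f (Fs l r T)) := f.continuous.comp (continuous_Fs l r)
  have c2 : Continuous (fun T : TT => g (Fs l' r' T)) := g.continuous.comp (continuous_Fs l' r')
  have h1 := hlim _ c1
  have h2 := hlim _ c2
  have h3 := hlim _ (c1.mul c2)
  show ∫ T, f (Fs l r T) * g (Fs l' r' T) ∂P = (∫ T, f (Fs l r T) ∂P) * ∫ T, g (Fs l' r' T) ∂P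
  refine tendsto_nhds_unique h3 ((h1.mul h2).congr (fun j => ?_))
  have hg := hμ j
  have := hg.prob
  have hA1 := Aj_pos j
  have e1 : (fun η => f (Fs l r (Theta (Aj j) (Aj_pos j) η))) =ᵐ[μ j]
      fun η => f (Gs (Aj j) l r (cutLe (Aj j) η)) := by
    filter_upwards [hg.net] with η hη
    rw [Fs_Theta _ hη]
    congr 1
    funext m i
    unfold Gs
    rw [Zd_left hA1 m (l i) (r i) (hr i)]
  have e2 : (fun η => g (Fs l' r' (Theta (Aj j) (Aj_pos j) η))) =ᵐ[μ j]
      fun η => g (Gs (Aj j) l' r' (cutR (((49152 * Aj j : ℕ) : ℤ) + (Aj j : ℕ)) η)) := by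
    filter_upwards [hg.net] with η hη
    rw [Fs_Theta _ hη]
    congr 1
    funext m i
    unfold Gs
    rw [Zd_right hA1 (c := 49154) (by push_cast; linarith) m (l' i) (r' i) (hl' i)]
  have hind : IndepFun (fun η => f (Gs (Aj j) l r (cutLe (Aj j) η)))
      (fun η => g (Gs (Aj j) l' r' (cutR (((49152 * Aj j : ℕ) : ℤ) + (Aj j : ℕ)) η))) (μ j) :=
    (hg.indep_shift (Aj j : ℕ)).comp
      (f.continuous.measurable.comp (measurable_Gs hA1 l r))
      (g.continuous.measurable.comp (measurable_Gs hA1 l' r'))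
  have hm1 : Measurable (fun η => f (Gs (Aj j) l r (cutLe (Aj j) η))) :=
    (f.continuous.measurable.comp (measurable_Gs hA1 l r)).comp (measurable_cutLe _)
  have hm2 : Measurable
      (fun η => g (Gs (Aj j) l' r' (cutR (((49152 * Aj j : ℕ) : ℤ) + (Aj j : ℕ)) η))) :=
    (g.continuous.measurable.comp (measurable_Gs hA1 l' r')).comp (measurable_cutR _)
  rw [integral_congr_ae e1, integral_congr_ae e2]
  refine Eq.trans ?_ (integral_congr_ae (e1.mul e2)).symm
  exact (hind.integral_mul_eq_mul_integral hm1.aestronglyMeasurable hm2.aestronglyMeasurable).symm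

/-- Recover counts from statistics. -/
noncomputable def recov {ι : Type} (z : ℕ → ι → ℝ) : ι → ℕ :=
  fun i => ⌊limsup (fun m => z m i) atTop⌋₊

omit hμ hlim [IsProbabilityMeasure P] [U.NeBot] in
lemma measurable_recov {ι : Type} : Measurable (recov : (ℕ → ι → ℝ) → ι → ℕ) := by
  refine measurable_pi_iff.2 (fun i => ?_)
  refine Nat.measurable_floor.comp ?_
  exact Measurable.limsup (fun m => (measurable_pi_apply i).comp (measurable_pi_apply m))

omit hμ hlim [IsProbabilityMeasure P] [U.NeBot] in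
lemma recov_Fs {ι : Type} (l r : ι → ℝ) (T : TT) :
    recov (Fs l r T) = fun i => cnt (l i) (r i) T.1 := by
  funext i
  unfold recov Fs
  rw [(tendsto_Z_cnt T.2 (l i) (r i)).limsup_eq]
  exact Nat.floor_natCast _

omit hμ hlim [IsProbabilityMeasure P] [U.NeBot] in
lemma measurable_cnt (u v : ℝ) : Measurable (fun T : TT => cnt u v T.1) := by
  have h := (measurable_pi_apply (0 : Fin 1)).comp (measurable_recov.comp
    (continuous_Fs (fun _ : Fin 1 => u) (fun _ : Fin 1 => v)).measurable)
  have e : ((fun f : Fin 1 → ℕ => f 0) ∘ (recov ∘ Fs (fun _ : Fin 1 => u) (fun _ : Fin 1 => v))) =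
      fun T : TT => cnt u v T.1 := by
    funext T
    simp only [Function.comp_apply]
    rw [recov_Fs]
  rw [← e]
  exact h

lemma indep_cnt :
    Indep
      (⨆ u : ℝ, ⨆ v : ℝ, MeasurableSpace.comap
        (fun T : TT => cnt u (min v 0) T.1) (inferInstance : MeasurableSpace ℕ))
      (⨆ u : ℝ, ⨆ v : ℝ, MeasurableSpace.comap
        (fun T : TT => cnt (max u 49154) v T.1) (inferInstance : MeasurableSpace ℕ))
      P := by
  have h1 : IndepFun (fun (T : TT) (p : ℝ × ℝ) => cnt p.1 (min p.2 0) T.1)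
      (fun (T : TT) (p : ℝ × ℝ) => cnt (max p.1 49154) p.2 T.1) P := by
    refine IndepFun.process_indepFun_process (fun p => measurable_cnt _ _)
      (fun p => measurable_cnt _ _) (fun I J => ?_)
    have h2 := indep_Fs hμ hlim (fun i : I => i.1.1) (fun i : I => min i.1.2 0)
      (fun i : J => max i.1.1 49154) (fun i : J => i.1.2) (fun i => min_le_right _ _)
      (fun i => le_max_right _ _)
    have h3 := h2.comp measurable_recov measurable_recov
    have e1 : (recov ∘ Fs (fun i : I => i.1.1) (fun i : I => min i.1.2 0)) =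
        fun (T : TT) (i : I) => cnt i.1.1 (min i.1.2 0) T.1 := by
      funext T
      exact recov_Fs _ _ T
    have e2 : (recov ∘ Fs (fun i : J => max i.1.1 49154) (fun i : J => i.1.2)) =
        fun (T : TT) (i : J) => cnt (max i.1.1 49154) i.1.2 T.1 := by
      funext T
      exact recov_Fs _ _ T
    rw [e1, e2] at h3
    exact h3
  refine indep_of_indep_of_le_left (indep_of_indep_of_le_right h1 ?_) ?_
  · refine iSup_le (fun u => iSup_le (fun v => ?_))
    have e : (fun T : TT => cnt (max u 49154) v T.1) =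
        (fun f : ℝ × ℝ → ℕ => f (u, v)) ∘
          (fun (T : TT) (p : ℝ × ℝ) => cnt (max p.1 49154) p.2 T.1) := rfl
    rw [e, ← MeasurableSpace.comap_comp]
    exact MeasurableSpace.comap_mono (measurable_pi_apply (u, v)).comap_le
  · refine iSup_le (fun u => iSup_le (fun v => ?_))
    have e : (fun T : TT => cnt u (min v 0) T.1) =
        (fun f : ℝ × ℝ → ℕ => f (u, v)) ∘
          (fun (T : TT) (p : ℝ × ℝ) => cnt p.1 (min p.2 0) T.1) := rfl
    rw [e, ← MeasurableSpace.comap_comp]
    exact MeasurableSpace.comap_mono (measurable_pi_apply (u, v)).comap_le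

end

/-- The main existence statement in terms of the compact space `TT`. -/
theorem main_exists : ∃ P : Measure TT, IsProbabilityMeasure P ∧
    (∀ (t : ℝ) (n : ℕ) (l r : Fin n → ℝ) (k : Fin n → ℕ),
      P {T : TT | ∀ i, cnt (l i) (r i) T.1 = k i} =
        P {T : TT | ∀ i, cnt (l i + t) (r i + t) T.1 = k i}) ∧
    Indep
      (⨆ u : ℝ, ⨆ v : ℝ, MeasurableSpace.comap
        (fun T : TT => cnt u (min v 0) T.1) (inferInstance : MeasurableSpace ℕ))
      (⨆ u : ℝ, ⨆ v : ℝ, MeasurableSpace.comap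
        (fun T : TT => cnt (max u 49154) v T.1) (inferInstance : MeasurableSpace ℕ))
      P := by
  choose μ hμ using fun j => discrete_nets exists_base j
  have : ∀ j, IsProbabilityMeasure (μ j) := fun j => (hμ j).prob
  obtain ⟨P, U, hP, hU1, hU2, hlim⟩ := exists_limit_law μ
  exact ⟨P, hP, fun t n l r k => cnt_stationary hμ hU2 hlim l r k t, indep_cnt hμ hlim⟩

end Pool.Agent.H97
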