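import Pool.Agent.H97.NetEnum

set_option autoImplicit false

open MeasureTheory ProbabilityTheory Filter Topology BoundedContinuousFunction
open scoped ENNReal

namespace Pool.Agent.H97

/-- The rescaled point sequence as an element of the compact space. -/
noncomputable def Theta (A : ℕ) (hA : 1 ≤ A) (η : Cfg) : TT := ⟨theta A η, theta_mem hA η⟩

lemma measurable_Theta (A : ℕ) (hA : 1 ≤ A) : Measurable (Theta A hA) :=
  (measurable_theta A).subtype_mk

/-- Vector of statistics. -/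
noncomputable def Fs {ι : Type} (l r : ι → ℝ) (T : TT) : ℕ → ι → ℝ := fun m i => Z m (l i) (r i) T.1

/-- Discrete vector of statistics. -/
noncomputable def Gs (A : ℕ) {ι : Type} (l r : ι → ℝ) (η : Cfg) : ℕ → ι → ℝ :=
  fun m i => Zd A m (l i) (r i) η

lemma continuous_Fs {ι : Type} (l r : ι → ℝ) : Continuous (Fs l r) := by
  unfold Fs
  exact continuous_pi (fun m => continuous_pi (fun i => continuous_Z m (l i) (r i)))

lemma measurable_Gs {A : ℕ} (hA : 1 ≤ A) {ι : Type} (l r : ι → ℝ) :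
    Measurable (Gs A l r) := by
  unfold Gs
  exact measurable_pi_iff.2 (fun m => measurable_pi_iff.2 (fun i => measurable_Zd hA m (l i) (r i)))

lemma Fs_Theta {A : ℕ} (hA : 1 ≤ A) {η : Cfg} (h : IsNet (A : ℤ) ((3 * A : ℕ) : ℤ) η) {ι : Type}
    (l r : ι → ℝ) : Fs l r (Theta A hA η) = Gs A l r η := by
  funext m i
  exact Z_theta h m (l i) (r i)

/-- Existence of a limit law. -/
lemma exists_limit_law (μ : ℕ → Measure Cfg) [∀ j, IsProbabilityMeasure (μ j)] :
    ∃ (P : Measure TT) (U : Filter ℕ), IsProbabilityMeasure P ∧ U.NeBot ∧ U ≤ atTop ∧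
      ∀ f : TT → ℝ, Continuous f →
        Tendsto (fun j => ∫ η, f (Theta (Aj j) (Aj_pos j) η) ∂(μ j)) U (𝓝 (∫ T, f T ∂P)) := by
  let p : ℕ → ProbabilityMeasure TT := fun j =>
    ⟨(μ j).map (Theta (Aj j) (Aj_pos j)),
      Measure.isProbabilityMeasure_map (measurable_Theta _ _).aemeasurable⟩
  let U : Ultrafilter ℕ := Ultrafilter.of atTop
  let P : ProbabilityMeasure TT := (Ultrafilter.map p U).lim
  have hP : Tendsto p U (𝓝 P) := Ultrafilter.le_nhds_lim (Ultrafilter.map p U)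
  refine ⟨(P : Measure TT), (U : Filter ℕ), inferInstance, inferInstance, Ultrafilter.of_le _, ?_⟩
  intro f hf
  have h1 := (ProbabilityMeasure.tendsto_iff_forall_integral_tendsto.1 hP)
    (BoundedContinuousFunction.mkOfCompact ⟨f, hf⟩)
  simp only [mkOfCompact_apply, ContinuousMap.coe_mk] at h1
  refine h1.congr (fun j => ?_)
  show ∫ T, f T ∂((μ j).map (Theta (Aj j) (Aj_pos j))) = _
  rw [integral_map (measurable_Theta _ _).aemeasurable hf.aestronglyMeasurable]

/-! ### Stationarity of the limit -/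

section
variable {μ : ℕ → Measure Cfg} (hμ : ∀ j, Good (Aj j) (3 * Aj j) (49152 * Aj j) (μ j))
  {P : Measure TT} {U : Filter ℕ} [IsProbabilityMeasure P] [U.NeBot] (hU : U ≤ atTop)
  (hlim : ∀ f : TT → ℝ, Continuous f →
        Tendsto (fun j => ∫ η, f (Theta (Aj j) (Aj_pos j) η) ∂(μ j)) U (𝓝 (∫ T, f T ∂P)))

include hμ hU hlim

lemma stat_dyadic {ι : Type} [Fintype ι] (l r : ι → ℝ) (f : (ℕ → ι → ℝ) →ᵇ ℝ) (p : ℤ) (q : ℕ) :
    ∫ T, f (Fs (fun i => l i + (p : ℝ) / 2 ^ q) (fun i => r i + (p : ℝ) / 2 ^ q) T) ∂P =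
      ∫ T, f (Fs l r T) ∂P := by
  have h1 := hlim (fun T => f (Fs l r T)) (f.continuous.comp (continuous_Fs l r))
  have h2 := hlim (fun T => f (Fs (fun i => l i + (p : ℝ) / 2 ^ q) (fun i => r i + (p : ℝ) / 2 ^ q) T))
    (f.continuous.comp (continuous_Fs _ _))
  refine tendsto_nhds_unique h2 (h1.congr' ?_)
  have h3 : ∀ᶠ j in U, q ≤ j := hU (eventually_ge_atTop q)
  filter_upwards [h3] with j hj
  obtain ⟨e, he, hA⟩ := Aj_eq j
  have hg := hμ j
  have := hg.prob
  set s : ℤ := p * 2 ^ (e - q) with hs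
  have hst : (p : ℝ) / 2 ^ q = (s : ℝ) / (Aj j : ℕ) := by
    rw [hA, hs]
    push_cast
    have e1 : e = q + (e - q) := by omega
    have e2 : (2 : ℝ) ^ e = 2 ^ q * 2 ^ (e - q) := by rw [← pow_add, ← e1]
    rw [e2]
    field_simp
  have hA1 := Aj_pos j
  calc ∫ η, f (Fs l r (Theta (Aj j) (Aj_pos j) η)) ∂(μ j)
      = ∫ η, f (Gs (Aj j) l r η) ∂(μ j) := by
        refine integral_congr_ae ?_
        filter_upwards [hg.net] with η hη
        rw [Fs_Theta _ hη]
    _ = ∫ η, f (Gs (Aj j) l r η) ∂((μ j).map (sh s)) := by rw [hg.stat s]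
    _ = ∫ η, f (Gs (Aj j) l r (sh s η)) ∂(μ j) := by
        rw [integral_map (measurable_sh s).aemeasurable]
        exact (f.continuous.measurable.comp (measurable_Gs hA1 l r)).aestronglyMeasurable
    _ = ∫ η, f (Fs (fun i => l i + (p : ℝ) / 2 ^ q) (fun i => r i + (p : ℝ) / 2 ^ q)
          (Theta (Aj j) (Aj_pos j) η)) ∂(μ j) := by
        refine integral_congr_ae ?_
        filter_upwards [hg.net] with η hη
        rw [Fs_Theta _ hη]
        congr 1
        funext m i
        unfold Gs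
        rw [hst, Zd_shift hA1]

lemma stat_real {ι : Type} [Fintype ι] (l r : ι → ℝ) (f : (ℕ → ι → ℝ) →ᵇ ℝ) (t : ℝ) :
    ∫ T, f (Fs (fun i => l i + t) (fun i => r i + t) T) ∂P = ∫ T, f (Fs l r T) ∂P := by
  have hs : Tendsto (fun k : ℕ => (⌊(2 : ℝ) ^ k * t⌋ : ℝ) / 2 ^ k) atTop (𝓝 t) := by
    have h0 : Tendsto (fun k : ℕ => ((1 : ℝ) / 2) ^ k) atTop (𝓝 0) :=
      tendsto_pow_atTop_nhds_zero_of_lt_one (by norm_num) (by norm_num)
    have h1 : Tendsto (fun k : ℕ => t - ((1 : ℝ) / 2) ^ k) atTop (𝓝 t) := by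
      simpa using tendsto_const_nhds.sub h0
    refine tendsto_of_tendsto_of_tendsto_of_le_of_le h1 tendsto_const_nhds (fun k => ?_) (fun k => ?_)
    · have h2 : (0 : ℝ) < 2 ^ k := by positivity
      have h3 := Int.lt_floor_add_one ((2 : ℝ) ^ k * t)
      show t - ((1 : ℝ) / 2) ^ k ≤ _
      rw [le_div_iff₀ h2, sub_mul, one_div, inv_pow, inv_mul_cancel₀ h2.ne']
      linarith
    · have h2 : (0 : ℝ) < 2 ^ k := by positivity
      have h3 := Int.floor_le ((2 : ℝ) ^ k * t)
      show _ ≤ t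
      rw [div_le_iff₀ h2]
      linarith
  have h1 : Tendsto (fun k : ℕ => ∫ T, f (Fs (fun i => l i + (⌊(2 : ℝ) ^ k * t⌋ : ℝ) / 2 ^ k)
      (fun i => r i + (⌊(2 : ℝ) ^ k * t⌋ : ℝ) / 2 ^ k) T) ∂P) atTop
      (𝓝 (∫ T, f (Fs (fun i => l i + t) (fun i => r i + t) T) ∂P)) := by
    refine tendsto_integral_of_dominated_convergence (fun _ => ‖f‖) (fun k => ?_) ?_ (fun k => ?_) ?_
    · exact (f.continuous.comp (continuous_Fs _ _)).aestronglyMeasurable
    · exact integrable_const _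
    · exact Eventually.of_forall (fun T => f.norm_coe_le_norm _)
    · refine Eventually.of_forall (fun T => ?_)
      refine (f.continuous.tendsto _).comp ?_
      refine tendsto_pi_nhds.2 (fun m => tendsto_pi_nhds.2 (fun i => ?_))
      exact tendsto_Z_shift T.2 m (l i) (r i) t _ hs
  have h2 : ∀ k : ℕ, ∫ T, f (Fs (fun i => l i + (⌊(2 : ℝ) ^ k * t⌋ : ℝ) / 2 ^ k)
      (fun i => r i + (⌊(2 : ℝ) ^ k * t⌋ : ℝ) / 2 ^ k) T) ∂P = ∫ T, f (Fs l r T) ∂P :=
    fun k => stat_dyadic hμ hU hlim l r f _ k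
  simp_rw [h2] at h1
  exact tendsto_nhds_unique h1 tendsto_const_nhds |>.symm ▸ rfl

lemma map_Fs_eq {ι : Type} [Fintype ι] (l r : ι → ℝ) (t : ℝ) :
    P.map (Fs (fun i => l i + t) (fun i => r i + t)) = P.map (Fs l r) := by
  have : IsProbabilityMeasure (P.map (Fs (fun i => l i + t) (fun i => r i + t))) :=
    Measure.isProbabilityMeasure_map (continuous_Fs _ _).measurable.aemeasurable
  have : IsProbabilityMeasure (P.map (Fs l r)) :=
    Measure.isProbabilityMeasure_map (continuous_Fs _ _).measurable.aemeasurable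
  refine ext_of_forall_integral_eq_of_IsFiniteMeasure (fun f => ?_)
  rw [integral_map (continuous_Fs _ _).measurable.aemeasurable f.continuous.aestronglyMeasurable,
    integral_map (continuous_Fs _ _).measurable.aemeasurable f.continuous.aestronglyMeasurable]
  exact stat_real hμ hU hlim l r f t

omit hμ hU hlim [IsProbabilityMeasure P] [U.NeBot] in
lemma cnt_event_eq {n : ℕ} (l r : Fin n → ℝ) (k : Fin n → ℕ) :
    {T : TT | ∀ i, cnt (l i) (r i) T.1 = k i} =
      Fs l r ⁻¹' (⋂ i, {z : ℕ → Fin n → ℝ | Tendsto (fun m => z m i) atTop (𝓝 (k i : ℝ))}) := by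
  ext T
  simp only [Set.mem_ofPred_eq, Set.mem_preimage, Set.mem_iInter]
  refine forall_congr' (fun i => ?_)
  have h1 := tendsto_Z_cnt T.2 (l i) (r i)
  constructor
  · intro h
    rw [h] at h1
    exact h1
  · intro h
    have h2 := tendsto_nhds_unique h1 h
    exact_mod_cast h2

lemma cnt_stationary {n : ℕ} (l r : Fin n → ℝ) (k : Fin n → ℕ) (t : ℝ) :
    P {T : TT | ∀ i, cnt (l i) (r i) T.1 = k i} =
      P {T : TT | ∀ i, cnt (l i + t) (r i + t) T.1 = k i} := by
  have hS : MeasurableSet (⋂ i, {z : ℕ → Fin n → ℝ | Tendsto (fun m => z m i) atTop (𝓝 (k i : ℝ))}) := by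
    refine MeasurableSet.iInter (fun i => ?_)
    exact measurableSet_tendsto (𝓝 (k i : ℝ))
      (f := fun (m : ℕ) (z : ℕ → Fin n → ℝ) => z m i)
      (fun m => (measurable_pi_apply i).comp (measurable_pi_apply m))
  rw [cnt_event_eq l r k, cnt_event_eq (fun i => l i + t) (fun i => r i + t) k,
    ← Measure.map_apply (continuous_Fs _ _).measurable hS,
    ← Measure.map_apply (continuous_Fs _ _).measurable hS, map_Fs_eq hμ hU hlim]

end

end Pool.Agent.H97
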