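import Pool.Agent.H97.Tower
import Pool.Agent.H97.ColourMeasure

set_option autoImplicit false

open MeasureTheory ProbabilityTheory Filter Topology
open scoped ENNReal

namespace Pool.Agent.H97

/-! ### The compact space of point sequences -/

/-- Increasing sequences `T : ℤ → ℝ` with gaps in `[1, 3]` and `T 0 ≤ 0 ≤ T 1`. -/
def TT : Set (ℤ → ℝ) :=
  {T | -3 ≤ T 0 ∧ T 0 ≤ 0 ∧ 0 ≤ T 1 ∧ ∀ n, T n + 1 ≤ T (n + 1) ∧ T (n + 1) ≤ T n + 3}

lemma TT_gap {T : ℤ → ℝ} (h : T ∈ TT) (m : ℤ) (k : ℕ) :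
    T m + k ≤ T (m + k) ∧ T (m + k) ≤ T m + 3 * k := by
  induction k with
  | zero => simp
  | succ k ih =>
    have h1 := h.2.2.2 (m + k)
    have e : m + ((k + 1 : ℕ) : ℤ) = m + k + 1 := by push_cast; ring
    rw [e]
    push_cast
    constructor <;> linarith [h1.1, h1.2, ih.1, ih.2]

lemma TT_ge {T : ℤ → ℝ} (h : T ∈ TT) {n : ℤ} (hn : 1 ≤ n) : (n : ℝ) - 1 ≤ T n := by
  have h1 := (TT_gap h 1 (n - 1).toNat).1
  have e : (1 : ℤ) + ((n - 1).toNat : ℤ) = n := by omega
  rw [e] at h1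
  have e2 : (((n - 1).toNat : ℕ) : ℝ) = (n : ℝ) - 1 := by
    have : (((n - 1).toNat : ℕ) : ℤ) = n - 1 := by omega
    exact_mod_cast this
  rw [e2] at h1
  linarith [h.2.2.1]

lemma TT_le {T : ℤ → ℝ} (h : T ∈ TT) {n : ℤ} (hn : n ≤ 0) : T n ≤ n := by
  have h1 := (TT_gap h n (-n).toNat).1
  have e : n + ((-n).toNat : ℤ) = 0 := by omega
  rw [e] at h1
  have e2 : (((-n).toNat : ℕ) : ℝ) = -(n : ℝ) := by
    have : (((-n).toNat : ℕ) : ℤ) = -n := by omega
    exact_mod_cast this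
  rw [e2] at h1
  linarith [h.2.1]

lemma TT_bound {T : ℤ → ℝ} (h : T ∈ TT) (n : ℤ) :
    -(3 + 3 * |(n : ℝ)|) ≤ T n ∧ T n ≤ 3 + 3 * |(n : ℝ)| := by
  rcases le_or_gt 0 n with hn | hn
  · have h1 := TT_gap h 0 n.toNat
    have e : (0 : ℤ) + (n.toNat : ℤ) = n := by omega
    rw [e] at h1
    have e2 : ((n.toNat : ℕ) : ℝ) = (n : ℝ) := by
      have : ((n.toNat : ℕ) : ℤ) = n := by omega
      exact_mod_cast this
    rw [e2] at h1
    have hn' : (0 : ℝ) ≤ n := by exact_mod_cast hn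
    rw [abs_of_nonneg hn']
    constructor <;> linarith [h.1, h.2.1, h1.1, h1.2]
  · have h1 := TT_gap h n (-n).toNat
    have e : n + ((-n).toNat : ℤ) = 0 := by omega
    rw [e] at h1
    have e2 : (((-n).toNat : ℕ) : ℝ) = -(n : ℝ) := by
      have : (((-n).toNat : ℕ) : ℤ) = -n := by omega
      exact_mod_cast this
    rw [e2] at h1
    have hn' : (n : ℝ) < 0 := by exact_mod_cast hn
    rw [abs_of_neg hn']
    constructor <;> linarith [h.1, h.2.1, h1.1, h1.2]

lemma isCompact_TT : IsCompact TT := by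
  have h1 : IsCompact (Set.univ.pi (fun n : ℤ => Set.Icc (-(3 + 3 * |(n : ℝ)|)) (3 + 3 * |(n : ℝ)|))) :=
    isCompact_univ_pi (fun n => isCompact_Icc)
  refine h1.of_isClosed_subset ?_ (fun T hT n _ => TT_bound hT n)
  have e : TT = {T | -3 ≤ T 0} ∩ {T | T 0 ≤ 0} ∩ {T | 0 ≤ T 1} ∩
      ⋂ n : ℤ, ({T | T n + 1 ≤ T (n + 1)} ∩ {T | T (n + 1) ≤ T n + 3}) := by
    ext T
    simp only [TT, Set.mem_ofPred_eq, Set.mem_inter_iff, Set.mem_iInter]
    tauto
  rw [e]
  refine ((IsClosed.inter ?_ ?_).inter ?_).inter (isClosed_iInter (fun n => IsClosed.inter ?_ ?_))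
  · exact isClosed_le continuous_const (continuous_apply 0)
  · exact isClosed_le (continuous_apply 0) continuous_const
  · exact isClosed_le continuous_const (continuous_apply 1)
  · exact isClosed_le ((continuous_apply n).add continuous_const) (continuous_apply (n + 1))
  · exact isClosed_le (continuous_apply (n + 1)) ((continuous_apply n).add continuous_const)

instance : CompactSpace TT := isCompact_iff_compactSpace.1 isCompact_TT

/-! ### Test functions -/

/-- Continuous approximations from above of the indicator function of `[u, v]`. -/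
noncomputable def tf (m : ℕ) (u v x : ℝ) : ℝ :=
  max 0 (1 - (m + 1) * max 0 (max (u - x) (x - v)))

lemma continuous_tf (m : ℕ) (u v : ℝ) : Continuous (tf m u v) := by
  unfold tf; fun_prop

lemma tf_shift (m : ℕ) (u v t x : ℝ) : tf m (u + t) (v + t) x = tf m u v (x - t) := by
  unfold tf
  rw [show u + t - x = u - (x - t) by ring, show x - (v + t) = x - t - v by ring]

lemma tf_eq_zero {m : ℕ} {u v x : ℝ} (h : x ≤ u - 1 ∨ v + 1 ≤ x) : tf m u v x = 0 := by
  unfold tf
  apply max_eq_left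
  have h1 : (1 : ℝ) ≤ max 0 (max (u - x) (x - v)) := by
    rcases h with h | h
    · exact le_max_of_le_right (le_max_of_le_left (by linarith))
    · exact le_max_of_le_right (le_max_of_le_right (by linarith))
  have h2 : (0 : ℝ) ≤ m := Nat.cast_nonneg m
  nlinarith

lemma tf_tendsto (u v x : ℝ) :
    Tendsto (fun m => tf m u v x) atTop (𝓝 (if x ∈ Set.Icc u v then 1 else 0)) := by
  by_cases hx : x ∈ Set.Icc u v
  · rw [if_pos hx]
    have : ∀ m, tf m u v x = 1 := by
      intro m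
      unfold tf
      have h1 : max 0 (max (u - x) (x - v)) = 0 := by
        apply max_eq_left
        apply max_le
        · linarith [hx.1]
        · linarith [hx.2]
      rw [h1]
      simp
    simp_rw [this]
    exact tendsto_const_nhds
  · rw [if_neg hx]
    have hd : 0 < max 0 (max (u - x) (x - v)) := by
      rw [Set.mem_Icc, not_and_or, not_le, not_le] at hx
      rcases hx with h | h
      · exact lt_max_of_lt_right (lt_max_of_lt_left (by linarith))
      · exact lt_max_of_lt_right (lt_max_of_lt_right (by linarith))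
    obtain ⟨N, hN⟩ := exists_nat_gt (1 / max 0 (max (u - x) (x - v)))
    refine tendsto_const_nhds.congr' ?_
    filter_upwards [eventually_ge_atTop N] with m hm
    symm
    unfold tf
    apply max_eq_left
    have h1 : (N : ℝ) ≤ m := by exact_mod_cast hm
    have h2 : 1 < (N : ℝ) * max 0 (max (u - x) (x - v)) := by
      rwa [div_lt_iff₀ hd] at hN
    nlinarith

/-- Sum of the test function over the points. -/
noncomputable def Z (m : ℕ) (u v : ℝ) (T : ℤ → ℝ) : ℝ := ∑' n : ℤ, tf m u v (T n)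

/-- radius of summation -/
lemma Z_eq_sum {T : ℤ → ℝ} (hT : T ∈ TT) {m : ℕ} {u v : ℝ} {M : ℕ} (hu : |u| + 1 ≤ M)
    (hv : |v| + 1 ≤ M) :
    Z m u v T = ∑ n ∈ Finset.Icc (-(M : ℤ) - 1) (M + 1), tf m u v (T n) := by
  unfold Z
  apply tsum_eq_sum
  intro n hn
  rw [Finset.mem_Icc, not_and_or, not_le, not_le] at hn
  apply tf_eq_zero
  rcases hn with h | h
  · left
    have h1 := TT_le hT (show n ≤ 0 by omega)
    have h2 : (n : ℝ) < -(M : ℝ) - 1 := by exact_mod_cast h
    have h3 := neg_abs_le u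
    linarith
  · right
    have h1 := TT_ge hT (show 1 ≤ n by omega)
    have h2 : (M : ℝ) + 1 < n := by exact_mod_cast h
    have h3 := le_abs_self v
    linarith

lemma exists_radius (u v : ℝ) : ∃ M : ℕ, |u| + 1 ≤ M ∧ |v| + 1 ≤ M := by
  obtain ⟨M, hM⟩ := exists_nat_ge (max (|u| + 1) (|v| + 1))
  exact ⟨M, (le_max_left _ _).trans hM, (le_max_right _ _).trans hM⟩

lemma continuous_Z (m : ℕ) (u v : ℝ) : Continuous (fun T : TT => Z m u v T.1) := by
  obtain ⟨M, hu, hv⟩ := exists_radius u v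
  have : (fun T : TT => Z m u v T.1) =
      fun T : TT => ∑ n ∈ Finset.Icc (-(M : ℤ) - 1) (M + 1), tf m u v (T.1 n) := by
    funext T
    exact Z_eq_sum T.2 hu hv
  rw [this]
  refine continuous_finsetSum _ (fun n _ => ?_)
  exact (continuous_tf m u v).comp ((continuous_apply n).comp continuous_subtype_val)

/-- Continuity in the shift. -/
lemma tendsto_Z_shift {T : ℤ → ℝ} (hT : T ∈ TT) (m : ℕ) (u v t : ℝ) (s : ℕ → ℝ)
    (hs : Tendsto s atTop (𝓝 t)) :
    Tendsto (fun k => Z m (u + s k) (v + s k) T) atTop (𝓝 (Z m (u + t) (v + t) T)) := by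
  obtain ⟨M, hM⟩ := exists_nat_ge (max (|u| + |t| + 2) (|v| + |t| + 2))
  have hM1 : |u| + |t| + 2 ≤ M := (le_max_left _ _).trans hM
  have hM2 : |v| + |t| + 2 ≤ M := (le_max_right _ _).trans hM
  have key : ∀ t' : ℝ, |t'| ≤ |t| + 1 → Z m (u + t') (v + t') T =
      ∑ n ∈ Finset.Icc (-(M : ℤ) - 1) (M + 1), tf m u v (T n - t') := by
    intro t' ht'
    have h1 := abs_add_le u t'
    have h2 := abs_add_le v t'
    rw [Z_eq_sum hT (M := M) (by linarith) (by linarith)]
    exact Finset.sum_congr rfl (fun n _ => tf_shift _ _ _ _ _)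
  rw [key t (by linarith)]
  have h3 : Tendsto (fun k => ∑ n ∈ Finset.Icc (-(M : ℤ) - 1) (M + 1), tf m u v (T n - s k)) atTop
      (𝓝 (∑ n ∈ Finset.Icc (-(M : ℤ) - 1) (M + 1), tf m u v (T n - t))) := by
    refine tendsto_finsetSum _ (fun n _ => ?_)
    exact ((continuous_tf m u v).tendsto _).comp (tendsto_const_nhds.sub hs)
  refine h3.congr' ?_
  have h4 : ∀ᶠ k in atTop, |s k| ≤ |t| + 1 := by
    have h5 : Tendsto (fun k => |s k|) atTop (𝓝 |t|) := (continuous_abs.tendsto t).comp hs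
    exact (h5.eventually_lt_const (show |t| < |t| + 1 by linarith)).mono (fun k hk => hk.le)
  filter_upwards [h4] with k hk
  exact (key _ hk).symm

/-- The points of the process. -/
def pts (T : ℤ → ℝ) : Set ℝ := Set.range T

/-- Number of points in an interval. -/
noncomputable def cnt (u v : ℝ) (T : ℤ → ℝ) : ℕ := (pts T ∩ Set.Icc u v).ncard

lemma TT_strictMono {T : ℤ → ℝ} (hT : T ∈ TT) : StrictMono T := by
  apply strictMono_int_of_lt_succ
  intro n
  linarith [(hT.2.2.2 n).1]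

lemma pts_inter_eq {T : ℤ → ℝ} (hT : T ∈ TT) {u v : ℝ} {M : ℕ} (hu : |u| + 1 ≤ M)
    (hv : |v| + 1 ≤ M) :
    pts T ∩ Set.Icc u v =
      T '' ((Finset.Icc (-(M : ℤ) - 1) (M + 1)).filter (fun n => T n ∈ Set.Icc u v) : Finset ℤ) := by
  ext x
  constructor
  · rintro ⟨⟨n, rfl⟩, hx⟩
    refine ⟨n, ?_, rfl⟩
    rw [Finset.mem_coe, Finset.mem_filter, Finset.mem_Icc]
    refine ⟨?_, hx⟩
    by_contra hn
    rw [not_and_or, not_le, not_le] at hn
    rcases hn with h | h
    · have h1 := TT_le hT (show n ≤ 0 by omega)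
      have h2 : (n : ℝ) < -(M : ℝ) - 1 := by exact_mod_cast h
      have h3 := neg_abs_le u
      linarith [hx.1]
    · have h1 := TT_ge hT (show 1 ≤ n by omega)
      have h2 : (M : ℝ) + 1 < n := by exact_mod_cast h
      have h3 := le_abs_self v
      linarith [hx.2]
  · rintro ⟨n, hn, rfl⟩
    rw [Finset.mem_coe, Finset.mem_filter] at hn
    exact ⟨⟨n, rfl⟩, hn.2⟩

lemma pts_finite {T : ℤ → ℝ} (hT : T ∈ TT) (u v : ℝ) : (pts T ∩ Set.Icc u v).Finite := by
  obtain ⟨M, hu, hv⟩ := exists_radius u v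
  rw [pts_inter_eq hT hu hv]
  exact (Finset.finite_toSet _).image _

lemma tendsto_Z_cnt {T : ℤ → ℝ} (hT : T ∈ TT) (u v : ℝ) :
    Tendsto (fun m => Z m u v T) atTop (𝓝 (cnt u v T : ℝ)) := by
  obtain ⟨M, hu, hv⟩ := exists_radius u v
  have h1 : (cnt u v T : ℝ) =
      ∑ n ∈ Finset.Icc (-(M : ℤ) - 1) (M + 1), (if T n ∈ Set.Icc u v then (1 : ℝ) else 0) := by
    unfold cnt
    rw [pts_inter_eq hT hu hv, Set.ncard_image_of_injective _ (TT_strictMono hT).injective,
      Set.ncard_coe_finset, Finset.card_filter]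
    push_cast
    rfl
  rw [h1]
  simp_rw [fun m => Z_eq_sum hT (m := m) hu hv]
  exact tendsto_finsetSum _ (fun n _ => tf_tendsto u v (T n))

lemma pts_sep {T : ℤ → ℝ} (hT : T ∈ TT) : ∀ x ∈ pts T, ∀ y ∈ pts T, x ≠ y → 1 ≤ |x - y| := by
  rintro x ⟨m, rfl⟩ y ⟨n, rfl⟩ hne
  have key : ∀ m n : ℤ, m < n → 1 ≤ |T m - T n| := by
    intro m n h
    have h1 := (TT_gap hT m (n - m).toNat).1
    have e : m + ((n - m).toNat : ℤ) = n := by omega
    rw [e] at h1
    have h2 : (1 : ℝ) ≤ (((n - m).toNat : ℕ) : ℝ) := by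
      have : 1 ≤ (n - m).toNat := by omega
      exact_mod_cast this
    rw [abs_sub_comm]
    exact le_trans (by linarith) (le_abs_self _)
  rcases lt_trichotomy m n with h | h | h
  · exact key m n h
  · subst h; exact absurd rfl hne
  · rw [abs_sub_comm]; exact key n m h

lemma pts_dense {T : ℤ → ℝ} (hT : T ∈ TT) (t : ℝ) : (pts T ∩ Set.Icc t (t + 3)).Nonempty := by
  obtain ⟨M, hM⟩ := exists_nat_ge (|t| + 1)
  have hbdd : ∃ b : ℤ, ∀ z : ℤ, T z < t → z ≤ b := by
    refine ⟨M + 1, fun z hz => ?_⟩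
    by_contra hcon
    have h1 := TT_ge hT (show 1 ≤ z by omega)
    have h2 : (M : ℝ) + 1 < z := by exact_mod_cast (not_le.1 hcon)
    have h3 := le_abs_self t
    linarith
  have hex : ∃ z : ℤ, T z < t := by
    refine ⟨-(M : ℤ), ?_⟩
    have h1 := TT_le hT (show -(M : ℤ) ≤ 0 by omega)
    push_cast at h1
    have h3 := neg_abs_le t
    linarith
  obtain ⟨n, h1, h2⟩ := Int.exists_greatest_of_bdd hbdd hex
  refine ⟨T (n + 1), ⟨n + 1, rfl⟩, ?_, ?_⟩
  · by_contra hcon
    have := h2 (n + 1) (not_le.1 hcon)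
    omega
  · linarith [(hT.2.2.2 n).2]

end Pool.Agent.H97
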