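import Mathlib

set_option autoImplicit false

open MeasureTheory ProbabilityTheory Filter Topology
open scoped ENNReal

namespace Pool.Agent.H97

/-- Configurations on `ℤ`. -/
abbrev Cfg : Type := ℤ → Bool

/-- Shift. -/
def sh (t : ℤ) (η : Cfg) : Cfg := fun x => η (x + t)

/-- Integer value of a boolean. -/
def bi (b : Bool) : ℤ := if b then 1 else 0

/-- Restriction to `(-∞, 0]`. -/
def cutL (η : Cfg) : Cfg := fun x => if x ≤ 0 then η x else false

/-- Restriction to `[k, ∞)`. -/
def cutR (k : ℤ) (η : Cfg) : Cfg := fun x => if k ≤ x then η x else false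

/-- Signed counting function: `idx η 0 = 0` and increments `bi (η (x+1))`. -/
noncomputable def idx (η : Cfg) (x : ℤ) : ℤ :=
  ∑ y ∈ Finset.Ioc 0 x, bi (η y) - ∑ y ∈ Finset.Ioc x 0, bi (η y)

/-- `η` is a net: distinct points are at distance at least `a`, and each window `(x, x+b]` contains
a point. -/
structure IsNet (a b : ℤ) (η : Cfg) : Prop where
  sep : ∀ x y, η x = true → η y = true → x < y → a ≤ y - x
  dense : ∀ x, ∃ y, x < y ∧ y ≤ x + b ∧ η y = true

/-- A stationary finitely dependent net. -/
structure Good (a b K : ℕ) (μ : Measure Cfg) : Prop where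
  prob : IsProbabilityMeasure μ
  stat : ∀ t : ℤ, μ.map (sh t) = μ
  net : ∀ᵐ η ∂μ, IsNet a b η
  indep : IndepFun cutL (cutR K) μ

/-! ### Elementary properties of `bi` and `idx` -/

lemma bi_true : bi true = 1 := rfl
lemma bi_false : bi false = 0 := rfl
lemma bi_nonneg (b : Bool) : 0 ≤ bi b := by cases b <;> simp [bi]
lemma bi_le_one (b : Bool) : bi b ≤ 1 := by cases b <;> simp [bi]

lemma idx_zero (η : Cfg) : idx η 0 = 0 := by simp [idx]

lemma idx_succ (η : Cfg) (x : ℤ) : idx η (x + 1) = idx η x + bi (η (x + 1)) := by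
  unfold idx
  rcases le_or_gt 0 x with hx | hx
  · have h1 : Finset.Ioc 0 (x + 1) = insert (x + 1) (Finset.Ioc 0 x) := by
      ext y; simp only [Finset.mem_Ioc, Finset.mem_insert]; omega
    have h2 : Finset.Ioc (x + 1) 0 = ∅ := by
      ext y; simp only [Finset.mem_Ioc, Finset.notMem_empty, iff_false]; omega
    have h3 : Finset.Ioc x 0 = ∅ := by
      ext y; simp only [Finset.mem_Ioc, Finset.notMem_empty, iff_false]; omega
    rw [h1, h2, h3, Finset.sum_insert (by simp)]
    simp only [Finset.sum_empty]
    ring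
  · have h1 : Finset.Ioc x 0 = insert (x + 1) (Finset.Ioc (x + 1) 0) := by
      ext y; simp only [Finset.mem_Ioc, Finset.mem_insert]; omega
    have h2 : Finset.Ioc 0 x = ∅ := by
      ext y; simp only [Finset.mem_Ioc, Finset.notMem_empty, iff_false]; omega
    have h3 : Finset.Ioc 0 (x + 1) = ∅ := by
      ext y; simp only [Finset.mem_Ioc, Finset.notMem_empty, iff_false]; omega
    rw [h1, h2, h3, Finset.sum_insert (by simp)]
    simp only [Finset.sum_empty]
    ring

lemma idx_pred (η : Cfg) (x : ℤ) : idx η (x - 1) = idx η x - bi (η x) := by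
  have h := idx_succ η (x - 1)
  rw [show x - 1 + 1 = x by ring] at h
  omega

lemma idx_mono (η : Cfg) {x y : ℤ} (h : x ≤ y) : idx η x ≤ idx η y := by
  obtain ⟨n, rfl⟩ := Int.le.dest h
  induction n with
  | zero => simp
  | succ n ih =>
    have h1 := idx_succ η (x + n)
    have h2 := bi_nonneg (η (x + n + 1))
    have h3 : x + ((n + 1 : ℕ) : ℤ) = x + n + 1 := by push_cast; ring
    rw [h3, h1]
    have := ih (by omega)
    omega

lemma idx_lt_of_true (η : Cfg) {x y : ℤ} (h : x < y) (hy : η y = true) : idx η x < idx η y := by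
  have h1 := idx_mono η (show x ≤ y - 1 by omega)
  have h2 := idx_pred η y
  rw [hy, bi_true] at h2
  omega

/-- Discrete intermediate value property. -/
lemma exists_idx_eq (η : Cfg) {x : ℤ} {l : ℤ} (h1 : idx η x < l) (n : ℕ) (h2 : l ≤ idx η (x + n)) :
    ∃ y, x < y ∧ y ≤ x + n ∧ η y = true ∧ idx η y = l := by
  induction n with
  | zero => simp at h2; omega
  | succ n ih =>
    by_cases h3 : l ≤ idx η (x + n)
    · obtain ⟨y, hy1, hy2, hy3, hy4⟩ := ih h3
      exact ⟨y, hy1, by push_cast; omega, hy3, hy4⟩
    · have h4 : x + ((n + 1 : ℕ) : ℤ) = x + n + 1 := by push_cast; ring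
      rw [h4, idx_succ] at h2
      have h5 := bi_le_one (η (x + n + 1))
      have h6 : bi (η (x + n + 1)) = 1 := by omega
      refine ⟨x + n + 1, by omega, by push_cast; omega, ?_, ?_⟩
      · by_contra hc
        rw [Bool.not_eq_true] at hc
        rw [hc, bi_false] at h6
        omega
      · rw [idx_succ]; omega

lemma idx_sh (η : Cfg) (t x : ℤ) : idx (sh t η) x = idx η (x + t) - idx η t := by
  induction x using Int.induction_on with
  | zero => simp [idx_zero]
  | succ n ih =>
    rw [idx_succ, ih]
    have h := idx_succ η (n + t)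
    rw [show (n : ℤ) + 1 + t = n + t + 1 by ring, h]
    unfold sh
    rw [show (n : ℤ) + 1 + t = n + t + 1 by ring]
    ring
  | pred n ih =>
    rw [idx_pred, ih]
    have h := idx_pred η (-n + t)
    rw [show -(n : ℤ) - 1 + t = -n + t - 1 by ring, h]
    unfold sh
    ring

lemma idx_cutL (η : Cfg) {x : ℤ} (hx : x ≤ 0) : idx (cutL η) x = idx η x := by
  obtain ⟨n, rfl⟩ : ∃ n : ℕ, x = -n := ⟨x.natAbs, by omega⟩
  clear hx
  induction n with
  | zero => simp [idx_zero]
  | succ n ih =>
    have h1 : -((n + 1 : ℕ) : ℤ) = -n - 1 := by push_cast; ring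
    rw [h1, idx_pred, idx_pred, ih]
    have h2 : cutL η (-n) = η (-n) := by
      unfold cutL; rw [if_pos (by omega)]
    rw [h2]

lemma idx_cutR (η : Cfg) {k x : ℤ} (hk : 1 ≤ k) (hx : k - 1 ≤ x) :
    idx (cutR k η) x = idx η x - idx η (k - 1) := by
  have base : ∀ m : ℕ, (m : ℤ) ≤ k - 1 → idx (cutR k η) m = 0 := by
    intro m
    induction m with
    | zero => intro _; simp [idx_zero]
    | succ m ih =>
      intro hm
      push_cast at hm ⊢
      rw [idx_succ, ih (by omega)]
      have : cutR k η (m + 1) = false := by unfold cutR; rw [if_neg (by omega)]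
      rw [this, bi_false]; rfl
  obtain ⟨n, rfl⟩ := Int.le.dest hx
  clear hx
  induction n with
  | zero =>
    have h := base (k - 1).toNat (by omega)
    rw [Int.toNat_of_nonneg (by omega)] at h
    simp [h]
  | succ n ih =>
    have h1 : k - 1 + ((n + 1 : ℕ) : ℤ) = k - 1 + n + 1 := by push_cast; ring
    rw [h1, idx_succ, idx_succ, ih]
    have h2 : cutR k η (k - 1 + n + 1) = η (k - 1 + n + 1) := by
      unfold cutR; rw [if_pos (by omega)]
    rw [h2]; ring

/-! ### Measurability -/

lemma measurable_apply (x : ℤ) : Measurable (fun η : Cfg => η x) := measurable_pi_apply x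

lemma measurable_sh (t : ℤ) : Measurable (sh t) :=
  measurable_pi_iff.2 (fun x => measurable_pi_apply (x + t))

lemma measurable_cutL : Measurable cutL := by
  refine measurable_pi_iff.2 (fun x => ?_)
  unfold cutL
  split_ifs
  · exact measurable_pi_apply x
  · exact measurable_const

lemma measurable_cutR (k : ℤ) : Measurable (cutR k) := by
  refine measurable_pi_iff.2 (fun x => ?_)
  unfold cutR
  split_ifs
  · exact measurable_pi_apply x
  · exact measurable_const

lemma measurable_idx (x : ℤ) : Measurable (fun η : Cfg => idx η x) := by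
  unfold idx
  refine Measurable.sub ?_ ?_
  · exact Finset.measurable_sum _ (fun y _ => (measurable_of_countable bi).comp (measurable_pi_apply y))
  · exact Finset.measurable_sum _ (fun y _ => (measurable_of_countable bi).comp (measurable_pi_apply y))

lemma sh_sh (s t : ℤ) (η : Cfg) : sh s (sh t η) = sh (s + t) η := by
  funext x; unfold sh; congr 1; ring

lemma measurable_eval_at : Measurable (fun p : Cfg × ℤ => p.1 p.2) :=
  measurable_from_prod_countable_left (fun n => measurable_pi_apply n)

end Pool.Agent.H97
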