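import Pool.Agent.H97.LimitSpace

set_option autoImplicit false

open MeasureTheory ProbabilityTheory Filter Topology
open scoped ENNReal

namespace Pool.Agent.H97

/-! ### Enumeration of a net -/

/-- The `n`-th point of the net. -/
noncomputable def enum (η : Cfg) (n : ℤ) : ℤ :=
  Classical.epsilon (fun x => η x = true ∧ idx η x = n)

lemma enum_spec {b : ℕ} {a : ℤ} {η : Cfg} (h : IsNet a b η) (n : ℤ) :
    η (enum η n) = true ∧ idx η (enum η n) = n := by
  apply Classical.epsilon_spec (p := fun x => η x = true ∧ idx η x = n)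
  have h1 := growth h (-((b : ℤ) * (n.natAbs + 1 : ℕ))) (n.natAbs + 1)
  rw [neg_add_cancel, idx_zero] at h1
  have h2 := growth h 0 (n.natAbs + 1)
  rw [zero_add, idx_zero] at h2
  have h3 : idx η (-((b : ℤ) * (n.natAbs + 1 : ℕ))) < n := by omega
  have h4 : n ≤ idx η (-((b : ℤ) * (n.natAbs + 1 : ℕ)) + ((2 * (b * (n.natAbs + 1)) : ℕ) : ℤ)) := by
    have e : -((b : ℤ) * (n.natAbs + 1 : ℕ)) + ((2 * (b * (n.natAbs + 1)) : ℕ) : ℤ) =
        (b : ℤ) * (n.natAbs + 1 : ℕ) := by push_cast; ring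
    rw [e]
    omega
  obtain ⟨y, _, _, h5, h6⟩ := exists_idx_eq η h3 _ h4
  exact ⟨y, h5, h6⟩

lemma idx_inj {η : Cfg} {x y : ℤ} (hx : η x = true) (hy : η y = true) (h : idx η x = idx η y) :
    x = y := by
  rcases lt_trichotomy x y with h1 | h1 | h1
  · have := idx_lt_of_true η h1 hy; omega
  · exact h1
  · have := idx_lt_of_true η h1 hx; omega

lemma enum_unique {b : ℕ} {a : ℤ} {η : Cfg} (h : IsNet a b η) {x n : ℤ} (hx : η x = true)
    (hn : idx η x = n) : enum η n = x := by
  obtain ⟨h1, h2⟩ := enum_spec h n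
  exact idx_inj h1 hx (by rw [h2, hn])

lemma enum_lt_succ {b : ℕ} {a : ℤ} {η : Cfg} (h : IsNet a b η) (n : ℤ) :
    enum η n < enum η (n + 1) := by
  obtain ⟨h1, h2⟩ := enum_spec h n
  obtain ⟨h3, h4⟩ := enum_spec h (n + 1)
  by_contra hcon
  have := idx_mono η (not_lt.1 hcon)
  omega

lemma enum_gap {b : ℕ} {a : ℤ} {η : Cfg} (h : IsNet a b η) (n : ℤ) :
    a ≤ enum η (n + 1) - enum η n ∧ enum η (n + 1) - enum η n ≤ b := by
  obtain ⟨h1, h2⟩ := enum_spec h n
  obtain ⟨h3, h4⟩ := enum_spec h (n + 1)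
  refine ⟨h.sep _ _ h1 h3 (enum_lt_succ h n), ?_⟩
  obtain ⟨y, hy1, hy2, hy3⟩ := h.dense (enum η n)
  have h5 := idx_lt_of_true η hy1 hy3
  have h6 : enum η (n + 1) ≤ y := by
    by_contra hcon
    have := idx_lt_of_true η (not_le.1 hcon) h3
    omega
  omega

lemma enum_zero_le {b : ℕ} {a : ℤ} {η : Cfg} (h : IsNet a b η) : enum η 0 ≤ 0 := by
  obtain ⟨h1, h2⟩ := enum_spec h 0
  by_contra hcon
  have := idx_lt_of_true η (not_le.1 hcon) h1
  rw [idx_zero] at this
  omega

lemma enum_one_pos {b : ℕ} {a : ℤ} {η : Cfg} (h : IsNet a b η) : 0 < enum η 1 := by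
  obtain ⟨h1, h2⟩ := enum_spec h 1
  by_contra hcon
  have := idx_mono η (not_lt.1 hcon)
  rw [idx_zero] at this
  omega

lemma enum_zero_ge {b : ℕ} {a : ℤ} {η : Cfg} (h : IsNet a b η) : -(b : ℤ) ≤ enum η 0 := by
  obtain ⟨h1, h2⟩ := enum_spec h 0
  obtain ⟨y, hy1, hy2, hy3⟩ := h.dense (-(b : ℤ))
  have h5 : y ≤ enum η 0 := by
    by_contra hcon
    have h6 := idx_lt_of_true η (not_le.1 hcon) hy3
    have h7 := idx_mono η hy2
    rw [show -(b : ℤ) + b = 0 by ring, idx_zero] at h7
    omega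
  omega

/-- The rescaled point sequence. -/
noncomputable def theta (A : ℕ) (η : Cfg) : ℤ → ℝ :=
  open Classical in
  if IsNet (A : ℤ) ((3 * A : ℕ) : ℤ) η then fun n => (enum η n : ℝ) / A else fun n => 2 * (n : ℝ)

lemma theta_of_net {A : ℕ} {η : Cfg} (h : IsNet (A : ℤ) ((3 * A : ℕ) : ℤ) η) :
    theta A η = fun n => (enum η n : ℝ) / A := by
  unfold theta
  rw [if_pos h]

lemma theta_mem {A : ℕ} (hA : 1 ≤ A) (η : Cfg) : theta A η ∈ TT := by
  have hA' : (0 : ℝ) < A := by exact_mod_cast hA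
  by_cases h : IsNet (A : ℤ) ((3 * A : ℕ) : ℤ) η
  · rw [theta_of_net h]
    refine ⟨?_, ?_, ?_, fun n => ⟨?_, ?_⟩⟩
    · have h1 := enum_zero_ge h
      have h2 : -((3 * A : ℕ) : ℝ) ≤ (enum η 0 : ℝ) := by exact_mod_cast h1
      push_cast at h2
      rw [le_div_iff₀ hA']
      linarith
    · have h1 := enum_zero_le h
      have h2 : (enum η 0 : ℝ) ≤ 0 := by exact_mod_cast h1
      rw [div_le_iff₀ hA']
      linarith
    · have h1 := enum_one_pos h
      have h2 : (0 : ℝ) < (enum η 1 : ℝ) := by exact_mod_cast h1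
      positivity
    · have h1 := (enum_gap h n).1
      have h2 : (A : ℝ) ≤ (enum η (n + 1) : ℝ) - enum η n := by exact_mod_cast h1
      show (enum η n : ℝ) / A + 1 ≤ (enum η (n + 1) : ℝ) / A
      rw [le_div_iff₀ hA', add_mul, div_mul_cancel₀ _ hA'.ne']
      linarith
    · have h1 := (enum_gap h n).2
      have h2 : (enum η (n + 1) : ℝ) - enum η n ≤ ((3 * A : ℕ) : ℝ) := by exact_mod_cast h1
      push_cast at h2
      show (enum η (n + 1) : ℝ) / A ≤ (enum η n : ℝ) / A + 3
      rw [div_le_iff₀ hA', add_mul, div_mul_cancel₀ _ hA'.ne']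
      linarith
  · unfold theta
    rw [if_neg h]
    refine ⟨by norm_num, by norm_num, by norm_num, fun n => ⟨?_, ?_⟩⟩
    · push_cast; linarith
    · push_cast; linarith

lemma measurable_theta (A : ℕ) : Measurable (theta A) := by
  classical
  refine measurable_pi_iff.2 (fun n => ?_)
  have hN := measurableSet_isNet (A : ℤ) ((3 * A : ℕ) : ℤ)
  have h1 : Measurable (fun η : Cfg => if IsNet (A : ℤ) ((3 * A : ℕ) : ℤ) η then enum η n else 0) := by
    refine measurable_to_countable' (fun y => ?_)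
    have e : (fun η : Cfg => if IsNet (A : ℤ) ((3 * A : ℕ) : ℤ) η then enum η n else 0) ⁻¹' {y} =
        ({η : Cfg | IsNet (A : ℤ) ((3 * A : ℕ) : ℤ) η} ∩
          ((fun η : Cfg => η y) ⁻¹' {true} ∩ (fun η : Cfg => idx η y) ⁻¹' {n})) ∪
        ({η : Cfg | IsNet (A : ℤ) ((3 * A : ℕ) : ℤ) η}ᶜ ∩ (if y = 0 then Set.univ else ∅)) := by
      ext η
      simp only [Set.mem_preimage, Set.mem_singleton_iff, Set.mem_union, Set.mem_inter_iff,
        Set.mem_ofPred_eq, Set.mem_compl_iff]
      by_cases h : IsNet (A : ℤ) ((3 * A : ℕ) : ℤ) η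
      · rw [if_pos h]
        constructor
        · intro h2
          subst h2
          exact Or.inl ⟨h, enum_spec h n⟩
        · rintro (⟨_, h3, h4⟩ | ⟨h2, _⟩)
          · exact enum_unique h h3 h4
          · exact absurd h h2
      · rw [if_neg h]
        by_cases hy : y = 0
        · subst hy
          rw [if_pos rfl]
          constructor
          · intro _; exact Or.inr ⟨h, Set.mem_univ _⟩
          · intro _; rfl
        · rw [if_neg hy]
          simp only [Set.mem_empty_iff_false, and_false, or_false]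
          constructor
          · intro h2; exact absurd h2.symm hy
          · rintro ⟨h2, _⟩; exact absurd h2 h
    rw [e]
    refine MeasurableSet.union ?_ ?_
    · exact hN.inter ((measurable_apply y (measurableSet_singleton _)).inter
        (measurable_idx y (measurableSet_singleton _)))
    · refine hN.compl.inter ?_
      split_ifs
      · exact MeasurableSet.univ
      · exact MeasurableSet.empty
  have h2 : (fun η : Cfg => theta A η n) = fun η : Cfg =>
      if IsNet (A : ℤ) ((3 * A : ℕ) : ℤ) η then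
        (((if IsNet (A : ℤ) ((3 * A : ℕ) : ℤ) η then enum η n else 0 : ℤ) : ℝ) / A)
      else 2 * (n : ℝ) := by
    funext η
    unfold theta
    by_cases h : IsNet (A : ℤ) ((3 * A : ℕ) : ℤ) η
    · rw [if_pos h, if_pos h, if_pos h]
    · rw [if_neg h, if_neg h]
  rw [h2]
  refine Measurable.ite hN ?_ measurable_const
  exact ((measurable_of_countable (fun z : ℤ => (z : ℝ))).comp h1).div_const _

/-! ### Discrete versions of the statistics -/

/-- Statistic of a configuration. -/
noncomputable def Zd (A m : ℕ) (u v : ℝ) (η : Cfg) : ℝ :=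
  ∑' x : ℤ, if η x = true then tf m u v ((x : ℝ) / A) else 0

lemma Z_theta {A : ℕ} {η : Cfg} (h : IsNet (A : ℤ) ((3 * A : ℕ) : ℤ) η) (m : ℕ) (u v : ℝ) :
    Z m u v (theta A η) = Zd A m u v η := by
  rw [theta_of_net h]
  unfold Z Zd
  have hinj : Function.Injective (enum η) := by
    intro n n' hn
    have h1 := (enum_spec h n).2
    have h2 := (enum_spec h n').2
    rw [hn] at h1
    omega
  have hsupp : Function.support (fun x : ℤ => if η x = true then tf m u v ((x : ℝ) / A) else 0) ⊆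
      Set.range (enum η) := by
    intro x hx
    rw [Function.mem_support] at hx
    have hx' : η x = true := by
      by_contra hcon
      rw [if_neg hcon] at hx
      exact hx rfl
    exact ⟨idx η x, enum_unique h hx' rfl⟩
  rw [← hinj.tsum_eq hsupp]
  refine tsum_congr (fun n => ?_)
  rw [if_pos (enum_spec h n).1]

lemma Zd_shift {A : ℕ} (hA : 1 ≤ A) (m : ℕ) (u v : ℝ) (s : ℤ) (η : Cfg) :
    Zd A m (u + (s : ℝ) / A) (v + (s : ℝ) / A) η = Zd A m u v (sh s η) := by
  have hA' : (0 : ℝ) < A := by exact_mod_cast hA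
  unfold Zd
  rw [← (Equiv.addRight s).tsum_eq]
  refine tsum_congr (fun x => ?_)
  simp only [Equiv.coe_addRight, sh]
  split_ifs
  · rw [tf_shift]
    congr 1
    push_cast
    field_simp
    ring
  · rfl

lemma Zd_left {A : ℕ} (hA : 1 ≤ A) (m : ℕ) (u v : ℝ) (hv : v ≤ 0) (η : Cfg) :
    Zd A m u v (cutLe A η) = Zd A m u v η := by
  have hA' : (0 : ℝ) < A := by exact_mod_cast hA
  unfold Zd
  refine tsum_congr (fun x => ?_)
  unfold cutLe
  by_cases hx : x ≤ A
  · rw [if_pos hx]
  · rw [if_neg hx, if_neg (by simp)]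
    have h1 : tf m u v ((x : ℝ) / A) = 0 := by
      apply tf_eq_zero
      right
      have h2 : (A : ℝ) ≤ x := by exact_mod_cast (not_le.1 hx).le
      rw [le_div_iff₀ hA']
      nlinarith
    rw [h1]
    simp

lemma Zd_right {A : ℕ} (hA : 1 ≤ A) {k : ℤ} {c : ℝ} (hk : (k : ℝ) ≤ (c - 1) * A) (m : ℕ)
    (u v : ℝ) (hu : c ≤ u) (η : Cfg) :
    Zd A m u v (cutR k η) = Zd A m u v η := by
  have hA' : (0 : ℝ) < A := by exact_mod_cast hA
  unfold Zd
  refine tsum_congr (fun x => ?_)
  unfold cutR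
  by_cases hx : k ≤ x
  · rw [if_pos hx]
  · rw [if_neg hx, if_neg (by simp)]
    have h1 : tf m u v ((x : ℝ) / A) = 0 := by
      apply tf_eq_zero
      left
      have h2 : (x : ℝ) ≤ k := by exact_mod_cast (not_le.1 hx).le
      rw [div_le_iff₀ hA']
      nlinarith
    rw [h1]
    simp

lemma measurable_Zd {A : ℕ} (hA : 1 ≤ A) (m : ℕ) (u v : ℝ) : Measurable (Zd A m u v) := by
  have hA' : (0 : ℝ) < A := by exact_mod_cast hA
  obtain ⟨M, hu, hv⟩ := exists_radius u v
  have e : Zd A m u v = fun η => ∑ x ∈ Finset.Icc (-((M * A : ℕ) : ℤ)) ((M * A : ℕ) : ℤ),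
      if η x = true then tf m u v ((x : ℝ) / A) else 0 := by
    funext η
    unfold Zd
    apply tsum_eq_sum
    intro x hx
    rw [Finset.mem_Icc, not_and_or, not_le, not_le] at hx
    have h1 : tf m u v ((x : ℝ) / A) = 0 := by
      apply tf_eq_zero
      rcases hx with hx | hx
      · left
        have h2 : (x : ℝ) ≤ -((M * A : ℕ) : ℝ) := by exact_mod_cast hx.le
        push_cast at h2
        rw [div_le_iff₀ hA']
        have h3 := neg_abs_le u
        nlinarith
      · right
        have h2 : ((M * A : ℕ) : ℝ) ≤ (x : ℝ) := by exact_mod_cast hx.le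
        push_cast at h2
        rw [le_div_iff₀ hA']
        have h3 := le_abs_self v
        nlinarith
    rw [h1]
    simp
  rw [e]
  refine Finset.measurable_sum _ (fun x _ => ?_)
  exact Measurable.ite (measurable_apply x (measurableSet_singleton _)) measurable_const
    measurable_const

end Pool.Agent.H97
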