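import Pool.Agent.H97.NetComp

set_option autoImplicit false

open MeasureTheory ProbabilityTheory Filter Topology
open scoped ENNReal

namespace Pool.Agent.H97

lemma measurable_sInf_nat {α : Type*} [MeasurableSpace α] (p : α → ℕ → Prop)
    (hp : ∀ i, MeasurableSet {a | p a i}) : Measurable (fun a => sInf {i | p a i}) := by
  classical
  refine measurable_to_countable' (fun n => ?_)
  have h : (fun a => sInf {i | p a i}) ⁻¹' {n} =
      ({a | p a n} ∩ ⋂ i ∈ Finset.range n, {a | p a i}ᶜ) ∪
        (if n = 0 then ⋂ i, {a | p a i}ᶜ else ∅) := by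
    ext a
    simp only [Set.mem_preimage, Set.mem_singleton_iff, Set.mem_union, Set.mem_inter_iff,
      Set.mem_ofPred_eq, Set.mem_iInter, Finset.mem_range, Set.mem_compl_iff]
    constructor
    · intro h
      by_cases hne : {i | p a i}.Nonempty
      · left
        have h1 := Nat.sInf_mem hne
        rw [h] at h1
        refine ⟨h1, fun i hi hpi => ?_⟩
        have h2 : sInf {i | p a i} ≤ i := Nat.sInf_le hpi
        omega
      · right
        rw [Set.not_nonempty_iff_eq_empty] at hne
        have hn : n = 0 := by rw [← h, hne]; simp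
        rw [if_pos hn]
        simp only [Set.mem_iInter, Set.mem_compl_iff, Set.mem_ofPred_eq]
        intro i hi
        have : i ∈ {i | p a i} := hi
        rw [hne] at this
        exact this
    · rintro (⟨h1, h2⟩ | h)
      · refine le_antisymm (Nat.sInf_le h1) ?_
        refine le_csInf ⟨n, h1⟩ (fun i hi => ?_)
        by_contra hlt
        exact h2 i (not_le.1 hlt) hi
      · split_ifs at h with hn
        · simp only [Set.mem_iInter, Set.mem_compl_iff, Set.mem_ofPred_eq] at h
          have : {i | p a i} = ∅ := Set.eq_empty_iff_forall_notMem.2 h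
          rw [this, hn]; simp
        · exact absurd h (Set.notMem_empty a)
  rw [h]
  refine MeasurableSet.union ((hp n).inter (Finset.measurableSet_biInter _ fun i _ => (hp i).compl)) ?_
  split_ifs
  · exact MeasurableSet.iInter (fun i => (hp i).compl)
  · exact MeasurableSet.empty

lemma sInf_nat_eq {p : ℕ → Prop} {n : ℕ} (h1 : p n) (h2 : ∀ i, i < n → ¬ p i) :
    sInf {i | p i} = n := by
  refine le_antisymm (Nat.sInf_le h1) ?_
  refine le_csInf ⟨n, h1⟩ (fun i hi => ?_)
  by_contra hlt
  exact h2 i (not_le.1 hlt) hi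

/-- distance to the last point at or before `x` -/
noncomputable def dl (R : Cfg) (x : ℤ) : ℕ := sInf {d : ℕ | R (x - d) = true}

/-- distance to the next point after `x` -/
noncomputable def dr (R : Cfg) (x : ℤ) : ℕ := sInf {e : ℕ | 1 ≤ e ∧ R (x + e) = true}

/-- subdivision points of a gap of length `g` into parts of size `m` or `m+1` -/
def memD (m d g : ℕ) : Bool := decide (∃ j < g / m, j * g / (g / m) = d)

/-- the repaired net -/
noncomputable def rep (m : ℕ) (R : Cfg) : Cfg := fun x => memD m (dl R x) (dl R x + dr R x)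

lemma measurable_dl (x : ℤ) : Measurable (fun R : Cfg => dl R x) := by
  refine measurable_sInf_nat _ (fun d => ?_)
  exact (measurable_apply (x - d)) (MeasurableSet.of_discrete (s := {b : Bool | b = true}))

lemma measurable_dr (x : ℤ) : Measurable (fun R : Cfg => dr R x) := by
  refine measurable_sInf_nat _ (fun e => ?_)
  exact (measurable_apply (x + e)) (MeasurableSet.of_discrete (s := {b : Bool | 1 ≤ e ∧ b = true}))

lemma measurable_rep (m : ℕ) : Measurable (rep m) := by
  refine measurable_pi_iff.2 (fun x => ?_)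
  exact (measurable_of_countable (fun q : ℕ × ℕ => memD m q.1 (q.1 + q.2))).comp
    ((measurable_dl x).prodMk (measurable_dr x))

lemma dl_sh (t : ℤ) (R : Cfg) (x : ℤ) : dl (sh t R) x = dl R (x + t) := by
  unfold dl sh
  congr 1
  ext d
  rw [Set.mem_ofPred_eq, Set.mem_ofPred_eq, show x - (d : ℤ) + t = x + t - d by ring]

lemma dr_sh (t : ℤ) (R : Cfg) (x : ℤ) : dr (sh t R) x = dr R (x + t) := by
  unfold dr sh
  congr 1
  ext d
  rw [Set.mem_ofPred_eq, Set.mem_ofPred_eq, show x + (d : ℤ) + t = x + t + d by ring]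

lemma sh_rep (t : ℤ) (m : ℕ) (R : Cfg) : sh t (rep m R) = rep m (sh t R) := by
  funext x
  unfold rep
  rw [dl_sh, dr_sh]
  rfl

/-- `[s, t)` is a cell of `R`. -/
structure Cell (R : Cfg) (s t : ℤ) : Prop where
  lt : s < t
  left : R s = true
  right : R t = true
  empty : ∀ z, s < z → z < t → R z = false

lemma Cell.dl {R : Cfg} {s t y : ℤ} (h : Cell R s t) (h1 : s ≤ y) (h2 : y < t) :
    dl R y = (y - s).toNat := by
  unfold H97.dl
  apply sInf_nat_eq
  · rw [Int.toNat_of_nonneg (by omega), show y - (y - s) = s by ring]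
    exact h.left
  · intro i hi hc
    have := h.empty (y - i) (by omega) (by omega)
    rw [this] at hc
    exact absurd hc (by simp)

lemma Cell.dr {R : Cfg} {s t y : ℤ} (h : Cell R s t) (h1 : s ≤ y) (h2 : y < t) :
    dr R y = (t - y).toNat := by
  unfold H97.dr
  apply sInf_nat_eq
  · refine ⟨by omega, ?_⟩
    rw [Int.toNat_of_nonneg (by omega), show y + (t - y) = t by ring]
    exact h.right
  · rintro i hi ⟨hi1, hc⟩
    have := h.empty (y + i) (by omega) (by omega)
    rw [this] at hc
    exact absurd hc (by simp)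

lemma exists_cell {a b : ℤ} {R : Cfg} (hR : IsNet a b R) (x : ℤ) :
    ∃ s t, Cell R s t ∧ s ≤ x ∧ x < t ∧ a ≤ t - s ∧ x - s < b ∧ t - x ≤ b := by
  -- the last point at or before x
  have hL : ∃ d : ℕ, R (x - d) = true := by
    obtain ⟨y, h1, h2, h3⟩ := hR.dense (x - b)
    exact ⟨(x - y).toNat, by rw [Int.toNat_of_nonneg (by omega), show x - (x - y) = y by ring]; exact h3⟩
  have hRr : ∃ e : ℕ, R (x + 1 + e) = true := by
    obtain ⟨y, h1, h2, h3⟩ := hR.dense x
    exact ⟨(y - x - 1).toNat, by
      rw [Int.toNat_of_nonneg (by omega), show x + 1 + (y - x - 1) = y by ring]; exact h3⟩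
  classical
  have hd := Nat.find_spec hL
  have hd' := fun i (hi : i < Nat.find hL) => Nat.find_min hL hi
  have he := Nat.find_spec hRr
  have he' := fun i (hi : i < Nat.find hRr) => Nat.find_min hRr hi
  set d := Nat.find hL
  set e := Nat.find hRr
  have hcell : Cell R (x - d) (x + 1 + e) := by
    refine ⟨by omega, hd, he, fun z hz1 hz2 => ?_⟩
    rcases le_or_gt z x with hz | hz
    · have h1 := hd' (x - z).toNat (by omega)
      rw [Int.toNat_of_nonneg (by omega), show x - (x - z) = z by ring] at h1
      simpa using h1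
    · have h1 := he' (z - x - 1).toNat (by omega)
      rw [Int.toNat_of_nonneg (by omega), show x + 1 + (z - x - 1) = z by ring] at h1
      simpa using h1
  refine ⟨x - d, x + 1 + e, hcell, by omega, by omega, hR.sep _ _ hd he hcell.lt, ?_, ?_⟩
  · by_contra hcon
    obtain ⟨y, h1, h2, h3⟩ := hR.dense (x - b)
    have := hcell.empty y (by omega) (by omega)
    rw [this] at h3
    exact absurd h3 (by simp)
  · by_contra hcon
    obtain ⟨y, h1, h2, h3⟩ := hR.dense x
    have := hcell.empty y (by omega) (by omega)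
    rw [this] at h3
    exact absurd h3 (by simp)

lemma rep_apply {R : Cfg} {s t y : ℤ} {m : ℕ} (h : Cell R s t) (h1 : s ≤ y) (h2 : y < t) :
    rep m R y = true ↔
      ∃ j < (t - s).toNat / m, j * (t - s).toNat / ((t - s).toNat / m) = (y - s).toNat := by
  unfold rep
  rw [h.dl h1 h2, h.dr h1 h2]
  have : (y - s).toNat + (t - y).toNat = (t - s).toNat := by omega
  rw [this]
  simp [memD]

/-! ### Arithmetic of the subdivision -/

/-- `j`-th subdivision point. -/
def Pt (g m j : ℕ) : ℕ := j * g / (g / m)

lemma Pt_zero (g m : ℕ) : Pt g m 0 = 0 := by simp [Pt]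

lemma Pt_last {g m : ℕ} (hq : 1 ≤ g / m) : Pt g m (g / m) = g := by
  unfold Pt
  exact Nat.mul_div_cancel_left g (by omega)

lemma Pt_succ_ge {g m : ℕ} (hq : 1 ≤ g / m) (j : ℕ) : Pt g m j + m ≤ Pt g m (j + 1) := by
  unfold Pt
  have h1 : (g / m) * m ≤ g := Nat.div_mul_le_self g m
  calc j * g / (g / m) + m = (j * g + m * (g / m)) / (g / m) :=
        (Nat.add_mul_div_right _ _ (by omega)).symm
    _ ≤ (j + 1) * g / (g / m) := by
        apply Nat.div_le_div_right
        nlinarith

lemma Pt_succ_le {g m : ℕ} (hm : 1 ≤ m) (hg : m * (m - 1) ≤ g) (hq : 1 ≤ g / m) (j : ℕ) :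
    Pt g m (j + 1) ≤ Pt g m j + (m + 1) := by
  unfold Pt
  have h1 : g ≤ (m + 1) * (g / m) := by
    have h2 := Nat.div_add_mod g m
    have h3 := Nat.mod_lt g (show 0 < m by omega)
    have h4 : m - 1 ≤ g / m := by
      rw [Nat.le_div_iff_mul_le (by omega)]
      rw [mul_comm]; exact hg
    have h5 : (m + 1) * (g / m) = m * (g / m) + g / m := by ring
    omega
  calc (j + 1) * g / (g / m) ≤ (j * g + (m + 1) * (g / m)) / (g / m) := by
        apply Nat.div_le_div_right
        nlinarith
    _ = j * g / (g / m) + (m + 1) := Nat.add_mul_div_right _ _ (by omega)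

lemma Pt_mono {g m : ℕ} (_hq : 1 ≤ g / m) {i j : ℕ} (h : i ≤ j) : Pt g m i ≤ Pt g m j := by
  unfold Pt
  exact Nat.div_le_div_right (Nat.mul_le_mul_right g h)

lemma IsNet.rep {a b m : ℕ} {R : Cfg} (hR : IsNet a b R) (hm : 1 ≤ m) (ha : m ≤ a)
    (ha2 : m * (m - 1) ≤ a) : IsNet m ((m + 1 : ℕ) : ℤ) (rep m R) := by
  have hq : ∀ s t : ℤ, (a : ℤ) ≤ t - s → 1 ≤ (t - s).toNat / m := by
    intro s t h
    rw [Nat.le_div_iff_mul_le (by omega)]
    omega
  constructor
  · intro x y hx hy hxy
    obtain ⟨s, t, hc, h1, h2, h3, -, -⟩ := exists_cell hR x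
    rw [rep_apply hc h1 h2] at hx
    obtain ⟨j, hj1, hj2⟩ := hx
    have hj2' : Pt (t - s).toNat m j = (x - s).toNat := hj2
    have hq' := hq s t h3
    by_cases hyt : y < t
    · rw [rep_apply hc (by omega) hyt] at hy
      obtain ⟨j', hj1', hj2''⟩ := hy
      have hj3 : Pt (t - s).toNat m j' = (y - s).toNat := hj2''
      have hlt : j < j' := by
        by_contra hcon
        have := Pt_mono hq' (not_lt.1 hcon)
        omega
      have h4 := Pt_mono hq' (show j + 1 ≤ j' by omega)
      have h5 := Pt_succ_ge hq' j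
      omega
    · have h4 := Pt_mono hq' (show j + 1 ≤ (t - s).toNat / m by omega)
      have h5 := Pt_succ_ge hq' j
      rw [Pt_last hq'] at h4
      omega
  · intro x
    obtain ⟨s, t, hc, h1, h2, h3, -, -⟩ := exists_cell hR x
    have hq' := hq s t h3
    have hex : ∃ j, (x - s).toNat < Pt (t - s).toNat m j :=
      ⟨(t - s).toNat / m, by rw [Pt_last hq']; omega⟩
    classical
    have hj := Nat.find_spec hex
    have hj' := fun i (hi : i < Nat.find hex) => Nat.find_min hex hi
    have hjle : Nat.find hex ≤ (t - s).toNat / m := Nat.find_min' hex (by rw [Pt_last hq']; omega)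
    set j := Nat.find hex
    have hj0 : j ≠ 0 := by
      intro h0
      rw [h0, Pt_zero] at hj
      omega
    obtain ⟨i, hi⟩ : ∃ i, j = i + 1 := ⟨j - 1, by omega⟩
    have h4 := hj' i (by omega)
    have h5 := Pt_succ_le hm (show m * (m - 1) ≤ (t - s).toNat by omega) hq' i
    rw [← hi] at h5
    refine ⟨s + Pt (t - s).toNat m j, by omega, by push_cast; omega, ?_⟩
    rcases hjle.lt_or_eq with hlt | heq
    · have h6 : Pt (t - s).toNat m j < (t - s).toNat := by
        have h7 := Pt_succ_ge hq' j
        have h8 := Pt_mono hq' (show j + 1 ≤ (t - s).toNat / m by omega)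
        rw [Pt_last hq'] at h8
        omega
      rw [rep_apply hc (by omega) (by omega)]
      refine ⟨j, hlt, ?_⟩
      have : (s + (Pt (t - s).toNat m j : ℤ) - s).toNat = Pt (t - s).toNat m j := by omega
      rw [this]
      rfl
    · have h6 : s + (Pt (t - s).toNat m j : ℤ) = t := by
        rw [heq, Pt_last hq']; omega
      rw [h6]
      obtain ⟨s', t', hc', h1', h2', h3', -, -⟩ := exists_cell hR t
      have hs' : s' = t := by
        rcases h1'.lt_or_eq with h | h
        · have := hc'.empty t h h2'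
          rw [hc.right] at this
          exact absurd this (by simp)
        · exact h
      subst hs'
      rw [rep_apply hc' le_rfl h2']
      refine ⟨0, hq _ _ h3', by simp⟩

/-! ### Locality -/

/-- Restriction to `(-∞, s]`. -/
def cutLe (s : ℤ) (η : Cfg) : Cfg := fun x => if x ≤ s then η x else false

lemma measurable_cutLe (s : ℤ) : Measurable (cutLe s) := by
  refine measurable_pi_iff.2 (fun x => ?_)
  unfold cutLe
  split_ifs
  · exact measurable_pi_apply x
  · exact measurable_const

lemma Good.indep_shift {a b K : ℕ} {μ : Measure Cfg} (h : Good a b K μ) (s : ℤ) :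
    IndepFun (cutLe s) (cutR (K + s)) μ := by
  have h1 : IndepFun (cutL ∘ sh s) (cutR K ∘ sh s) μ := by
    rw [indepFun_iff_measure_inter_preimage_eq_mul]
    intro S1 S2 hS1 hS2
    have h2 := (indepFun_iff_measure_inter_preimage_eq_mul.1 h.indep) S1 S2 hS1 hS2
    have hms := measurable_sh s
    rw [← h.stat s] at h2
    rw [Measure.map_apply hms ((measurable_cutL hS1).inter ((measurable_cutR K) hS2)),
      Measure.map_apply hms (measurable_cutL hS1), Measure.map_apply hms ((measurable_cutR K) hS2)] at h2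
    exact h2
  have h2 := h1.comp (measurable_sh (-s)) (measurable_sh (-s))
  have e1 : sh (-s) ∘ cutL ∘ sh s = cutLe s := by
    funext η x
    simp only [Function.comp_apply, sh, cutL, cutLe]
    by_cases hx : x ≤ s
    · rw [if_pos (by omega), if_pos hx]; congr 1; ring
    · rw [if_neg (by omega), if_neg hx]
  have e2 : sh (-s) ∘ cutR K ∘ sh s = cutR (K + s) := by
    funext η x
    simp only [Function.comp_apply, sh, cutR]
    by_cases hx : (K : ℤ) + s ≤ x
    · rw [if_pos (by omega), if_pos hx]; congr 1; ring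
    · rw [if_neg (by omega), if_neg hx]
  rw [e1, e2] at h2
  exact h2

lemma cutL_rep {a b : ℕ} {m : ℕ} {R : Cfg} (hR : IsNet a b R) :
    cutL (rep m R) = cutL (rep m (cutLe b R)) := by
  funext x
  by_cases hx : x ≤ 0
  · simp only [cutL, if_pos hx]
    obtain ⟨s, t, hc, h1, h2, h3, h4, h5⟩ := exists_cell hR x
    have hc' : Cell (cutLe b R) s t := by
      refine ⟨hc.lt, ?_, ?_, fun z hz1 hz2 => ?_⟩
      · unfold cutLe; rw [if_pos (by omega)]; exact hc.left
      · unfold cutLe; rw [if_pos (by omega)]; exact hc.right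
      · unfold cutLe; rw [if_pos (by omega)]; exact hc.empty z hz1 hz2
    rw [Bool.eq_iff_iff, rep_apply hc h1 h2, rep_apply hc' h1 h2]
  · simp [cutL, hx]

lemma cutR_rep {a b : ℕ} {m : ℕ} {k : ℤ} {R : Cfg} (hR : IsNet a b R) :
    cutR k (rep m R) = cutR k (rep m (cutR (k - b) R)) := by
  funext x
  by_cases hx : k ≤ x
  · simp only [cutR, if_pos hx]
    obtain ⟨s, t, hc, h1, h2, h3, h4, h5⟩ := exists_cell hR x
    have hc' : Cell (cutR (k - b) R) s t := by
      refine ⟨hc.lt, ?_, ?_, fun z hz1 hz2 => ?_⟩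
      · unfold cutR; rw [if_pos (by omega)]; exact hc.left
      · unfold cutR; rw [if_pos (by omega)]; exact hc.right
      · unfold cutR; rw [if_pos (by omega)]; exact hc.empty z hz1 hz2
    have h6 := rep_apply (m := m) hc h1 h2
    have h7 := rep_apply (m := m) hc' h1 h2
    rw [Bool.eq_iff_iff, h6, h7]
  · simp [cutR, hx]

theorem Good.rep {a b K m : ℕ} {μ : Measure Cfg} (hμ : Good a b K μ) (hm : 1 ≤ m) (ha : m ≤ a)
    (ha2 : m * (m - 1) ≤ a) : Good m (m + 1) (K + 2 * b) (μ.map (rep m)) := by
  have := hμ.prob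
  have hmr := measurable_rep m
  refine ⟨Measure.isProbabilityMeasure_map hmr.aemeasurable, ?_, ?_, ?_⟩
  · intro t
    rw [Measure.map_map (measurable_sh t) hmr]
    have h1 : sh t ∘ H97.rep m = H97.rep m ∘ sh t := by
      funext R; exact sh_rep t m R
    rw [h1, ← Measure.map_map hmr (measurable_sh t), hμ.stat t]
  · rw [ae_map_iff hmr.aemeasurable (measurableSet_isNet _ _)]
    filter_upwards [hμ.net] with R hR
    exact hR.rep hm ha ha2
  · have h1 : IndepFun (cutL ∘ H97.rep m) (cutR ((K + 2 * b : ℕ) : ℤ) ∘ H97.rep m) μ := by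
      have h2 := (hμ.indep_shift b).comp (measurable_cutL.comp hmr)
        ((measurable_cutR ((K + 2 * b : ℕ) : ℤ)).comp hmr)
      refine h2.congr ?_ ?_
      · filter_upwards [hμ.net] with R hR
        simp only [Function.comp_apply]
        exact (cutL_rep hR).symm
      · filter_upwards [hμ.net] with R hR
        simp only [Function.comp_apply]
        have e : ((K + 2 * b : ℕ) : ℤ) - b = K + b := by push_cast; ring
        rw [cutR_rep (k := ((K + 2 * b : ℕ) : ℤ)) hR, e]
    rw [indepFun_iff_measure_inter_preimage_eq_mul] at h1 ⊢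
    intro S1 S2 hS1 hS2
    rw [Measure.map_apply hmr ((measurable_cutL hS1).inter ((measurable_cutR _) hS2)),
      Measure.map_apply hmr (measurable_cutL hS1), Measure.map_apply hmr ((measurable_cutR _) hS2)]
    exact h1 S1 S2 hS1 hS2

end Pool.Agent.H97
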