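import Pool.Agent.H97.NetRepair

set_option autoImplicit false

open MeasureTheory ProbabilityTheory Filter Topology
open scoped ENNReal

namespace Pool.Agent.H97

lemma Good.mono_b {a b b' K : ℕ} {μ : Measure Cfg} (h : Good a b K μ) (hb : b ≤ b') :
    Good a b' K μ := by
  refine ⟨h.prob, h.stat, ?_, h.indep⟩
  filter_upwards [h.net] with η hη
  refine ⟨hη.sep, fun x => ?_⟩
  obtain ⟨y, h1, h2, h3⟩ := hη.dense x
  have : (b : ℤ) ≤ b' := by exact_mod_cast hb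
  exact ⟨y, h1, by omega, h3⟩

lemma good_one : Good 1 1 1 (Measure.dirac (fun _ => true : Cfg)) := by
  refine ⟨inferInstance, ?_, ?_, ?_⟩
  · intro t
    rw [Measure.map_dirac' (measurable_sh t)]
    rfl
  · rw [ae_dirac_iff (measurableSet_isNet _ _)]
    refine ⟨fun x y _ _ h => by push_cast; omega, fun x => ⟨x + 1, by omega, by push_cast; omega, rfl⟩⟩
  · rw [indepFun_iff_measure_inter_preimage_eq_mul]
    intro S1 S2 hS1 hS2
    rw [Measure.dirac_apply' _ ((measurable_cutL hS1).inter ((measurable_cutR _) hS2)),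
      Measure.dirac_apply' _ (measurable_cutL hS1), Measure.dirac_apply' _ ((measurable_cutR _) hS2)]
    rw [Set.inter_indicator_one]
    rfl

lemma base_iter (h0 : ∃ μ, Good 2 6 4 μ) (i : ℕ) : ∃ μ, Good (2 ^ i) (6 ^ i) (4 * 6 ^ i) μ := by
  obtain ⟨μ₀, hμ₀⟩ := h0
  induction i with
  | zero => exact ⟨_, good_one.mono (by norm_num)⟩
  | succ i ih =>
    obtain ⟨μ, hμ⟩ := ih
    have h1 := hμ.comp (Nat.one_le_pow _ _ (by norm_num)) (by norm_num) hμ₀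
    refine ⟨_, h1.mono ?_⟩
    rw [pow_succ]
    apply max_le <;> omega

lemma near_regular (h0 : ∃ μ, Good 2 6 4 μ) (p : ℕ) :
    ∃ μ, Good (2 ^ p) (2 ^ p + 1) (6 * 36 ^ p) μ := by
  obtain ⟨μ, hμ⟩ := base_iter h0 (2 * p)
  have h1 : 1 ≤ 2 ^ p := Nat.one_le_pow _ _ (by norm_num)
  have h2 : 2 ^ (2 * p) = 2 ^ p * 2 ^ p := by rw [two_mul, pow_add]
  have h3 := hμ.rep (m := 2 ^ p) h1 (by rw [h2]; nlinarith) (by
    rw [h2]; exact Nat.mul_le_mul_left _ (Nat.sub_le _ _))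
  refine ⟨_, h3.mono (le_of_eq ?_)⟩
  rw [show 36 = 6 ^ 2 by norm_num, ← pow_mul]
  ring

/-- parameters -/
def Aj : ℕ → ℕ
  | 0 => 1
  | j + 1 => 2 ^ (j + 1) * Aj j

def Bj : ℕ → ℕ
  | 0 => 1
  | j + 1 => (2 ^ (j + 1) + 1) * Bj j

def Cj : ℕ → ℕ
  | 0 => 0
  | j + 1 => max (6 * 36 ^ (j + 1)) ((2 ^ (j + 1) + 1) * Cj j)

lemma tower_aux (h0 : ∃ μ, Good 2 6 4 μ) (j : ℕ) : ∀ (a b K : ℕ) (μ : Measure Cfg), 1 ≤ b →
    Good a b K μ → ∃ μ', Good (a * Aj j) (b * Bj j) (max K (Cj j * b)) μ' := by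
  induction j with
  | zero =>
    intro a b K μ _ h
    refine ⟨μ, ?_⟩
    simpa [Aj, Bj, Cj] using h
  | succ j ih =>
    intro a b K μ hb h
    obtain ⟨ν, hν⟩ := near_regular h0 (j + 1)
    have h1 := h.comp hb (Nat.mul_pos (by norm_num) (pow_pos (by norm_num) _)) hν
    obtain ⟨μ', hμ'⟩ := ih _ _ _ _ (Nat.mul_le_mul hb (Nat.le_add_left 1 _)) h1
    refine ⟨μ', ?_⟩
    have e1 : a * 2 ^ (j + 1) * Aj j = a * Aj (j + 1) := by rw [Aj]; ring
    have e2 : b * (2 ^ (j + 1) + 1) * Bj j = b * Bj (j + 1) := by rw [Bj]; ring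
    rw [e1, e2] at hμ'
    refine hμ'.mono (le_of_eq ?_)
    rw [Cj, max_assoc]
    congr 1
    rw [max_mul_of_nonneg _ _ (Nat.zero_le b)]
    congr 1
    ring

lemma Aj_pos (j : ℕ) : 1 ≤ Aj j := by
  induction j with
  | zero => simp [Aj]
  | succ j ih => rw [Aj]; exact Nat.mul_le_mul (Nat.one_le_pow _ _ (by norm_num)) ih

lemma Aj_le_Bj (j : ℕ) : Aj j ≤ Bj j := by
  induction j with
  | zero => simp [Aj, Bj]
  | succ j ih => rw [Aj, Bj]; exact Nat.mul_le_mul (Nat.le_succ _) ih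

lemma Bj_aux (j : ℕ) : Bj j * (2 ^ j + 2) ≤ 3 * 2 ^ j * Aj j := by
  induction j with
  | zero => simp [Aj, Bj]
  | succ j ih =>
    rw [Aj, Bj, pow_succ]
    set y := 2 ^ j with hy
    have hy1 : 1 ≤ y := Nat.one_le_pow _ _ (by norm_num)
    have h1 : (y * 2 + 1) * (y * 2 + 2) ≤ 4 * y * (y + 2) := by nlinarith
    refine le_of_mul_le_mul_right ?_ (show 0 < y + 2 by omega)
    calc (y * 2 + 1) * Bj j * (y * 2 + 2) * (y + 2)
        = (y * 2 + 1) * (y * 2 + 2) * (Bj j * (y + 2)) := by ring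
      _ ≤ (4 * y * (y + 2)) * (3 * y * Aj j) := Nat.mul_le_mul h1 ih
      _ = 3 * (y * 2) * (y * 2 * Aj j) * (y + 2) := by ring

lemma Bj_le (j : ℕ) : Bj j ≤ 3 * Aj j := by
  have h := Bj_aux j
  have h1 : 1 ≤ 2 ^ j := Nat.one_le_pow _ _ (by norm_num)
  refine le_of_mul_le_mul_left ?_ (show 0 < 2 ^ j by omega)
  calc 2 ^ j * Bj j ≤ Bj j * (2 ^ j + 2) := by nlinarith
    _ ≤ 3 * 2 ^ j * Aj j := h
    _ = 2 ^ j * (3 * Aj j) := by ring

lemma dep_le (j : ℕ) : 6 * 36 ^ j ≤ 16384 * Aj j := by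
  rcases Nat.lt_or_ge j 5 with hj | hj
  · interval_cases j <;> simp [Aj]
  · induction j, hj using Nat.le_induction with
    | base => simp [Aj]
    | succ j hj ih =>
      rw [Aj, pow_succ]
      have h1 : 36 ≤ 2 ^ (j + 1) := by
        calc 36 ≤ 2 ^ 6 := by norm_num
          _ ≤ 2 ^ (j + 1) := Nat.pow_le_pow_right (by norm_num) (by omega)
      calc 6 * (36 ^ j * 36) = (6 * 36 ^ j) * 36 := by ring
        _ ≤ (16384 * Aj j) * 2 ^ (j + 1) := Nat.mul_le_mul ih h1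
        _ = 16384 * (2 ^ (j + 1) * Aj j) := by ring

lemma Cj_le (j : ℕ) : Cj j ≤ 16384 * Bj j := by
  induction j with
  | zero => simp [Cj]
  | succ j ih =>
    rw [Cj]
    apply max_le
    · exact (dep_le (j + 1)).trans (Nat.mul_le_mul_left _ (Aj_le_Bj _))
    · rw [Bj]
      calc (2 ^ (j + 1) + 1) * Cj j ≤ (2 ^ (j + 1) + 1) * (16384 * Bj j) := Nat.mul_le_mul_left _ ih
        _ = 16384 * ((2 ^ (j + 1) + 1) * Bj j) := by ring

theorem discrete_nets (h0 : ∃ μ, Good 2 6 4 μ) (j : ℕ) :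
    ∃ μ, Good (Aj j) (3 * Aj j) (49152 * Aj j) μ := by
  obtain ⟨μ, hμ⟩ := tower_aux h0 j 1 1 1 _ le_rfl good_one
  refine ⟨μ, ?_⟩
  rw [one_mul, one_mul] at hμ
  refine (hμ.mono_b (Bj_le j)).mono ?_
  have h1 := Cj_le j
  have h2 := Bj_le j
  have h3 := Aj_pos j
  apply max_le
  · omega
  · omega

/-- `Aj j` is a power of two with exponent at least `j`. -/
lemma Aj_eq (j : ℕ) : ∃ e, j ≤ e ∧ Aj j = 2 ^ e := by
  induction j with
  | zero => exact ⟨0, le_rfl, rfl⟩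
  | succ j ih =>
    obtain ⟨e, he, h⟩ := ih
    exact ⟨j + 1 + e, by omega, by rw [Aj, h, ← pow_add]⟩

end Pool.Agent.H97
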